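import Pool.Agent.Lib.MFG.SpecA

/-!
# MP_98850d_an, theorem (C), part A: assembly
-/

set_option autoImplicit false

namespace Pool.Agent.MFG

open Set Filter Topology

universe u

theorem tAsmA : S_AsmA.{u} := by
  intro hO hB G _ _ _ _ N n m P hN hP D hD hPk X _ _ _ _ ι O hF hL hι hιi hOn
  obtain ⟨q, z, O', h1, h2, h3, h4⟩ := hO G N n m P hN hP D hD hPk X ι O (1 / 8) hF hL hι hιi hOn
    (by norm_num) (by norm_num)
  have hcov : ∀ x : X, ∃ k : Fin (n + m + 1) × Fin (P + 1) × Fin q, ∃ u : G,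
      D u ≤ 13 / 8 ∧ u • x ∈ O' k.1 k.2.1 k.2.2 := by
    intro x
    obtain ⟨k, l, j, u, hu, hx⟩ := h4 x
    refine ⟨(k, l, j), u, ?_, hx⟩
    norm_num at hu ⊢
    linarith
  obtain ⟨b, b1, b2, b3, b4⟩ := hB G D hD X (Fin (n + m + 1) × Fin (P + 1) × Fin q)
    (fun k => O' k.1 k.2.1 k.2.2) (13 / 8) (by norm_num) (fun k => h1 _ _ _) hcov
  refine ⟨q, z, fun c j => b ((finProdFinEquiv.symm c).1, (finProdFinEquiv.symm c).2, j), ?_⟩
  constructor
  · intro k j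
    exact b1 _
  · intro k j x
    exact (b2 _ x).1
  · intro k j x
    exact (b2 _ x).2
  · intro k j x hx
    exact h2 _ _ _ _ (b3 _ _ hx)
  · intro k j j' x u hx hx' hu
    exact h3 _ _ j j' x u (b3 _ _ hx) (b3 _ _ hx') hu
  · intro x
    obtain ⟨⟨k, l, j⟩, u, hu, hx⟩ := b4 x
    refine ⟨finProdFinEquiv (k, l), j, u, hu, ?_⟩
    rw [Equiv.symm_apply_apply]
    exact hx

end Pool.Agent.MFG
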