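import Pool.Agent.Lib.MFG.SpecA

/-! # MP_98850d_an, theorem (C), part A: from open sets to functions -/

set_option autoImplicit false

namespace Pool.Agent.MFG

open Set Filter Topology

universe u

namespace BkM

theorem bk_f {X : Type u} [MetricSpace X] {O : Set X} (hO : IsOpen O) :
    ∃ f : X → ℝ, Continuous f ∧ (∀ x, 0 ≤ f x) ∧ ∀ x, 0 < f x ↔ x ∈ O := by
  by_cases h : Oᶜ.Nonempty
  · refine ⟨fun x => Metric.infDist x Oᶜ, Metric.continuous_infDist_pt _,
      fun x => Metric.infDist_nonneg, fun x => ?_⟩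
    rw [← hO.isClosed_compl.notMem_iff_infDist_pos h]
    simp
  · refine ⟨fun _ => 1, continuous_const, fun _ => zero_le_one, fun x => ?_⟩
    rw [not_nonempty_iff_eq_empty, compl_empty_iff] at h
    simp [h]

end BkM

open BkM

theorem tBk : S_Bk.{u} := by
  intro G _ _ _ _ D hD X _ _ _ _ K _ O ρ hρ hO hcov
  rcases isEmpty_or_nonempty X with hX | hX
  · exact ⟨fun _ _ => 0, fun _ => continuous_const, fun _ x => (hX.false x).elim,
      fun _ x => (hX.false x).elim, fun x => (hX.false x).elim⟩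
  choose f hf hf0 hfO using fun k => bk_f (hO k)
  have hh0 : ∀ k x, 0 ≤ hgt D ρ (f k) x := by
    intro k x
    exact (hf0 k ((1 : G) • x)).trans (le_hgt hD (hf k) x (by rw [hD.one]; exact hρ))
  have hF : Continuous (fun x => ∑ k, hgt D ρ (f k) x) :=
    continuous_finsetSum _ (fun k _ => hgt_cont hD ρ (hf k))
  have hFpos : ∀ x, 0 < ∑ k, hgt D ρ (f k) x := by
    intro x
    obtain ⟨k, u, hu, hx⟩ := hcov x
    have h1 : 0 < hgt D ρ (f k) x := lt_of_lt_of_le ((hfO k _).2 hx) (le_hgt hD (hf k) x hu)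
    exact lt_of_lt_of_le h1 (Finset.single_le_sum (f := fun k => hgt D ρ (f k) x)
      (fun k _ => hh0 k x) (Finset.mem_univ k))
  obtain ⟨x1, -, hx1⟩ := isCompact_univ.exists_isMinOn univ_nonempty hF.continuousOn
  set c := ∑ k, hgt D ρ (f k) x1 with hc
  have hcpos : 0 < c := hFpos x1
  have hmin : ∀ x, c ≤ ∑ k, hgt D ρ (f k) x := fun x => hx1 (mem_univ x)
  obtain ⟨k0, -⟩ := hcov x1
  have hcard : (0 : ℝ) < Fintype.card K := by
    exact_mod_cast Fintype.card_pos_iff.2 ⟨k0⟩
  refine ⟨fun k x => min 1 (f k x * (Fintype.card K / c)), ?_, ?_, ?_, ?_⟩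
  · intro k
    exact continuous_const.min ((hf k).mul continuous_const)
  · intro k x
    exact ⟨le_min zero_le_one (mul_nonneg (hf0 k x) (by positivity)), min_le_left _ _⟩
  · intro k x h
    have h1 := (lt_min_iff.1 h).2
    exact (hfO k x).1 (pos_of_mul_pos_left h1 (by positivity))
  · intro x
    have hsum : ∑ _k : K, c / Fintype.card K ≤ ∑ k, hgt D ρ (f k) x := by
      rw [Finset.sum_const, Finset.card_univ, nsmul_eq_mul]
      have : (Fintype.card K : ℝ) * (c / Fintype.card K) = c := by field_simp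
      rw [this]
      exact hmin x
    obtain ⟨k, -, hk⟩ := Finset.exists_le_of_sum_le ⟨k0, Finset.mem_univ k0⟩ hsum
    obtain ⟨u, hu, hatt⟩ := hgt_att hD hρ (hf k) x
    refine ⟨k, u, hu, ?_⟩
    change min 1 (f k (u • x) * (Fintype.card K / c)) = 1
    apply min_eq_left
    rw [hatt]
    calc (1 : ℝ) = (c / Fintype.card K) * (Fintype.card K / c) := by field_simp
      _ ≤ _ := mul_le_mul_of_nonneg_right hk (by positivity)

end Pool.Agent.MFG
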