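import Pool.Agent.Lib.MFG.SpecA

/-! # MP_98850d_an, theorem (C), part A: labels are constant on clusters -/

set_option autoImplicit false

namespace Pool.Agent.MFG

open Set Filter Topology

universe u

namespace CIM

theorem used (hHI : S_HI.{u}) {G : Type} [Group G] [TopologicalSpace G] [IsTopologicalGroup G] [T2Space G]
    {D : G → ℝ} (hD : Len D) {q : ℕ} {X : Type u} [MetricSpace X] [MulAction G X] [ContinuousSMul G X]
    {r s : ℝ} {b : Fin q → X → ℝ} {st : Fin q → X → ℕ} (hr : 0 < r) (hr8 : r ≤ 1 / 8) (hbas : Bas D r b)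
    {W : ℝ} {j : Fin q} {y : X} {u : G} (hy : 0 < b j y) (huy : 0 < b j (u • y)) (hu : D u ≤ 20) :
    Used D r s b st W j (u • y) ⊆ Used D r s b st W j y := by
  obtain ⟨hbc, hb01, hcls⟩ := hbas
  rintro l ⟨hl, i, hij, w', h1, h2, h3⟩
  have h1' : 0 < b i (w' • (u • y)) := by linarith
  have h4 := (hHI G D hD X r W (b j) (b i) y u (w' * u) w' hr hr8 (hbc j) (hbc i) (fun x => (hb01 j x).1)
    (fun x => (hb01 i x).1) (hcls j) (hcls i) hy huy hu).2 (by rw [mul_smul]; exact h1') h1'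
    (by rw [mul_inv_cancel, hD.one]; norm_num)
  refine ⟨hl, i, hij, w' * u, by rw [mul_smul]; exact h1, by rw [mul_smul]; exact h2, ?_⟩
  rw [← h4]
  exact h3

end CIM

theorem tCI : S_HI.{u} → S_CI.{u} := by
  classical
  intro hHI G _ _ _ _ D hD q X _ _ _ r s b st hr hr8 hbas hst j y u hy huy hu
  have hback : 0 < b j (u⁻¹ • (u • y)) := by rwa [inv_smul_smul]
  have hU : ∀ W, Used D r s b st W j (u • y) = Used D r s b st W j y := by
    intro W
    apply Subset.antisymm (CIM.used hHI hD hr hr8 hbas hy huy hu)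
    have h := CIM.used hHI hD (s := s) (st := st) (W := W) hr hr8 hbas (y := u • y) (u := u⁻¹) huy hback
      (by rwa [hD.inv])
    rwa [inv_smul_smul] at h
  have hH : hgt D r (b j) (u • y) = hgt D r (b j) y :=
    (hHI G D hD X r 0 (b j) (b j) y u 1 1 hr hr8 (hbas.1 j) (hbas.1 j) (fun x => (hbas.2.1 j x).1)
    (fun x => (hbas.2.1 j x).1) (hbas.2.2 j) (hbas.2.2 j) hy huy hu).1
  rw [hst j (u • y), hst j y, hU 1, hU 8, hH]

end Pool.Agent.MFG
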