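import Pool.Agent.Lib.MFG.SpecA

/-! # MP_98850d_an, theorem (C), part A: the covering property is dense -/

set_option autoImplicit false
set_option linter.unusedSectionVars false

namespace Pool.Agent.MFG

open Set Filter Topology

universe u

namespace CovDM

section aux

variable {G : Type} [Group G] [TopologicalSpace G] [IsTopologicalGroup G] {N : G → ℝ}
variable {X : Type u} [MetricSpace X] [MulAction G X] [ContinuousSMul G X] {m : ℕ}

/-- the distance function on `K0` -/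
noncomputable def rho (N : G → ℝ) (ι : X → E m) (P : X → G) (K0 : Set X) (y y' : K0) : ℝ :=
  max (N (P y * (P y')⁻¹)) (dist (ι (P y • (y : X))) (ι (P y' • (y' : X))))

theorem rho_cont (hN : Len N) {ι : X → E m} (hι : Continuous ι) {P : X → G} {K0 : Set X}
    (hP : ContinuousOn P K0) : Continuous (fun p : K0 × K0 => rho N ι P K0 p.1 p.2) := by
  have hP' : Continuous (fun y : K0 => P y) := continuousOn_iff_continuous_domRestrict.1 hP
  have h1 : Continuous (fun p : K0 × K0 => P p.1) := hP'.comp continuous_fst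
  have h2 : Continuous (fun p : K0 × K0 => P p.2) := hP'.comp continuous_snd
  have h3 : Continuous (fun y : K0 => ι (P y • (y : X))) :=
    hι.comp (hP'.smul continuous_subtype_val)
  have h4 : Continuous (fun p : K0 × K0 => N (P p.1 * (P p.2)⁻¹)) := hN.cont.comp (h1.mul h2.inv)
  exact h4.max ((h3.comp continuous_fst).dist (h3.comp continuous_snd))

omit [IsTopologicalGroup G] [ContinuousSMul G X] in
theorem rho_self (hN : Len N) (ι : X → E m) (P : X → G) (K0 : Set X) (y : K0) :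
    rho N ι P K0 y y = 0 := by
  unfold rho
  rw [mul_inv_cancel, hN.one, dist_self, max_self]

omit [IsTopologicalGroup G] [ContinuousSMul G X] in
theorem rho_symm (hN : Len N) (ι : X → E m) (P : X → G) (K0 : Set X) (y y' : K0) :
    rho N ι P K0 y y' = rho N ι P K0 y' y := by
  unfold rho
  rw [hN.symm, dist_comm]

omit [IsTopologicalGroup G] [ContinuousSMul G X] in
theorem rho_tri (hN : Len N) (ι : X → E m) (P : X → G) (K0 : Set X) (x y z : K0) :
    rho N ι P K0 x z ≤ rho N ι P K0 x y + rho N ι P K0 y z := by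
  unfold rho
  refine max_le ?_ ?_
  · exact (hN.tri (P x) (P y) (P z)).trans (add_le_add (le_max_left _ _) (le_max_left _ _))
  · exact (dist_triangle _ (ι (P y • (y : X))) _).trans
      (add_le_add (le_max_right _ _) (le_max_right _ _))

omit [IsTopologicalGroup G] [ContinuousSMul G X] in
theorem rho_eq (hN : Len N) {ι : X → E m} (hinj : Function.Injective ι) (P : X → G) (K0 : Set X)
    (y y' : K0) (h : rho N ι P K0 y y' = 0) : y = y' := by
  unfold rho at h
  have h1 : N (P y * (P y')⁻¹) ≤ 0 := h ▸ le_max_left _ _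
  have h2 : dist (ι (P y • (y : X))) (ι (P y' • (y' : X))) ≤ 0 := h ▸ le_max_right _ _
  have h3 : P y = P y' := mul_inv_eq_one.1 ((hN.zero _).1 (le_antisymm h1 (hN.nonneg _)))
  have h4 : P y • (y : X) = P y' • (y' : X) := hinj (dist_le_zero.1 h2)
  rw [h3] at h4
  exact Subtype.ext (MulAction.injective (P y') h4)

end aux

/-- the choice of `ε` and the estimate of the sum -/
theorem sum_bound (n m : ℕ) (C1 C2 L0 η : ℝ) (h1 : 0 < C1) (h2 : 0 < C2) (h3 : 0 < L0)
    (hη : 0 < η) : ∃ ε : ℝ, 0 < ε ∧ ε ≤ 1 ∧ ∀ s t : ℝ, 0 ≤ t → s ≤ (C1 / ε) ^ n →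
      t ≤ (C2 / ε) ^ m → s * t * (L0 * ε) ^ (n + m + 1) < η := by
  set Z : ℝ := C1 ^ n * C2 ^ m * L0 ^ (n + m + 1) with hZ
  have hZpos : 0 < Z := by positivity
  set ε : ℝ := min 1 (η / (2 * Z)) with hε
  have hεpos : 0 < ε := lt_min one_pos (by positivity)
  have hεη : Z * ε < η := by
    have h1 : ε ≤ η / (2 * Z) := min_le_right _ _
    calc Z * ε ≤ Z * (η / (2 * Z)) := mul_le_mul_of_nonneg_left h1 hZpos.le
      _ = η / 2 := by field_simp
      _ < η := by linarith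
  refine ⟨ε, hεpos, min_le_left _ _, fun s t ht hs hst => lt_of_le_of_lt ?_ hεη⟩
  calc s * t * (L0 * ε) ^ (n + m + 1)
      ≤ (C1 / ε) ^ n * (C2 / ε) ^ m * (L0 * ε) ^ (n + m + 1) := by
        apply mul_le_mul_of_nonneg_right _ (by positivity)
        exact mul_le_mul hs hst ht (by positivity)
    _ = Z * ε := by
        rw [hZ, div_pow, div_pow, mul_pow, pow_succ ε, pow_add ε]
        field_simp

end CovDM

open CovDM in
theorem tCovD : Pool.Agent.MP98850d.S_Cube → S_Lip.{u} → S_Tie.{u} → S_CovD.{u} := by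
  intro hCube hLip hTie G _ _ _ _ N n m q hN hPol D X _ _ _ _ ι Q D0 K0 P b τ η hι hιinj hK0 hP
    hD0 hPeq hb hτ hη
  have : CompactSpace K0 := isCompact_iff_compactSpace.1 hK0
  choose g L hL hgc hgL hg using fun j => hLip K0 (rho N ι P K0) (fun y => b j y) (τ / 2)
    (rho_cont hN hι hP) (rho_self hN ι P K0) (rho_symm hN ι P K0) (rho_tri hN ι P K0)
    (rho_eq hN hιinj P K0) ((hb j).comp continuous_subtype_val) (half_pos hτ)
  choose b' hb'c hb'b hb'g using fun j => hTie X K0 (b j) (g j) (τ / 2) hK0 (hb j) (hgc j)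
    (half_pos hτ).le (fun x => by
      rw [abs_sub_comm]
      exact (hg j x).le)
  set L0 : ℝ := 1 + ∑ j, L j with hL0
  have hL0pos : 0 < L0 := by
    have : 0 ≤ ∑ j, L j := Finset.sum_nonneg (fun j _ => (hL j).le)
    linarith
  have hLle : ∀ j, L j ≤ L0 := by
    intro j
    have := Finset.single_le_sum (f := L) (fun j _ => (hL j).le) (Finset.mem_univ j)
    linarith
  obtain ⟨M1, hM1⟩ := hK0.exists_bound_of_continuousOn (hN.cont.comp_continuousOn hP)
  obtain ⟨M2, hM2⟩ := isCompact_univ.exists_bound_of_continuousOn hι.continuousOn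
  have hPM : ∀ x ∈ D0, N (P x) ≤ M1 := fun x hx => (le_abs_self _).trans (hM1 x (hD0 hx))
  have hιM : ∀ x, ‖ι x‖ ≤ max M2 0 := fun x => (hM2 x (mem_univ x)).trans (le_max_left _ _)
  obtain ⟨C1, hC1, hcube1⟩ := hPol M1
  obtain ⟨C2, hC2, hcube2⟩ := hCube m (max M2 0) (le_max_right _ _)
  obtain ⟨ε, hεpos, hε1, hsum⟩ := sum_bound n m C1 C2 L0 η hC1 hC2 hL0pos hη
  obtain ⟨κ1, hκ1, B1, hcard1, hcov1, hB1⟩ := hcube1 ε hεpos hε1
  obtain ⟨κ2, hκ2, B2, hcard2, hcov2, hB2⟩ := hcube2 ε hεpos hε1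
  refine ⟨b', hb'c, fun j x => (hb'b j x).trans_lt (half_lt_self hτ), ?_⟩
  refine ⟨κ1 × κ2, inferInstance, fun i => {x | x ∈ D0 ∧ P x ∈ B1 i.1 ∧ ι (P x • x) ∈ B2 i.2},
    fun _ => L0 * ε, fun _ => by positivity, ?_, ?_, ?_⟩
  · intro x hx
    obtain ⟨i, hi⟩ := mem_iUnion.1 (hcov1 (hPM x hx))
    obtain ⟨i', hi'⟩ := mem_iUnion.1 (hcov2 (show ι (P x • x) ∈ Metric.closedBall 0 (max M2 0) from
      mem_closedBall_zero_iff.2 (hιM (P x • x))))
    exact mem_iUnion.2 ⟨(i, i'), hx, hi, hi'⟩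
  · rw [Finset.sum_const, Finset.card_univ, Fintype.card_prod, nsmul_eq_mul, Nat.cast_mul]
    exact hsum _ _ (Nat.cast_nonneg _) hcard1 hcard2
  · rintro ⟨i, i'⟩ x ⟨hx, hx1, hx2⟩ x' ⟨hx', hx1', hx2'⟩ j u hu
    obtain ⟨k1, p1⟩ := hPeq x hx u hu
    obtain ⟨k2, p2⟩ := hPeq x' hx' u hu
    have e1 : b' j (u • x) = g j ⟨u • x, k1⟩ := hb'g j ⟨u • x, k1⟩
    have e2 : b' j (u • x') = g j ⟨u • x', k2⟩ := hb'g j ⟨u • x', k2⟩
    have a1 : P (u • x) • (u • x) = P x • x := by rw [p1, act_sub]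
    have a2 : P (u • x') • (u • x') = P x' • x' := by rw [p2, act_sub]
    have a3 : P (u • x) * (P (u • x'))⁻¹ = P x * (P x')⁻¹ := by
      rw [p1, p2]
      group
    have hd : rho N ι P K0 ⟨u • x, k1⟩ ⟨u • x', k2⟩ ≤ ε := by
      unfold rho
      simp only
      rw [a1, a2, a3]
      exact max_le (hB1 i _ hx1 _ hx1') (hB2 i' _ hx2 _ hx2')
    have hd0 : 0 ≤ rho N ι P K0 ⟨u • x, k1⟩ ⟨u • x', k2⟩ :=
      le_max_of_le_right dist_nonneg
    rw [e1, e2]
    calc |g j ⟨u • x, k1⟩ - g j ⟨u • x', k2⟩| ≤ L j * rho N ι P K0 ⟨u • x, k1⟩ ⟨u • x', k2⟩ :=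
          hgL j _ _
      _ ≤ L0 * ε := mul_le_mul (hLle j) hd hd0 hL0pos.le

end Pool.Agent.MFG
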