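import Pool.Agent.Lib.MFG.SpecA

/-! # MP_98850d_an, theorem (C): the covering property is open and additive -/

set_option autoImplicit false

namespace Pool.Agent.MFG

open Set Filter Topology

universe u

theorem tCovO : S_CovO.{u} := by
  intro G _ D q X _ Q N
  refine ⟨?_, ?_⟩
  · rintro b S η ⟨κ, hκ, B, ε, hε, hcov, hsum, hosc⟩
    have hcont : Continuous (fun τ : ℝ => ∑ i, (ε i + 2 * τ) ^ N) := by fun_prop
    have hev : ∀ᶠ τ : ℝ in 𝓝 0, ∑ i, (ε i + 2 * τ) ^ N < η := by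
      apply hcont.continuousAt.eventually_lt continuousAt_const
      simpa using hsum
    obtain ⟨τ, h1, h2⟩ := ((hev.filter_mono nhdsWithin_le_nhds).and
      (self_mem_nhdsWithin : Ioi (0 : ℝ) ∈ 𝓝[>] 0)).exists
    refine ⟨τ, h2, fun b' hb' => ⟨κ, hκ, B, fun i => ε i + 2 * τ, fun i => ?_, hcov, h1, ?_⟩⟩
    · have := hε i
      have h2' : 0 < τ := h2
      linarith
    · intro i x hx x' hx' j u hu
      have e1 := abs_le.1 (hosc i x hx x' hx' j u hu)
      have e2 := abs_le.1 (hb' j (u • x))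
      have e3 := abs_le.1 (hb' j (u • x'))
      rw [abs_le]
      constructor <;> linarith [e1.1, e1.2, e2.1, e2.2, e3.1, e3.2]
  · rintro b S S' η η' ⟨κ, hκ, B, ε, hε, hcov, hsum, hosc⟩ ⟨κ', hκ', B', ε', hε', hcov', hsum', hosc'⟩
    refine ⟨κ ⊕ κ', inferInstance, Sum.elim B B', Sum.elim ε ε', ?_, ?_, ?_, ?_⟩
    · rintro (i | i)
      · exact hε i
      · exact hε' i
    · rintro x (hx | hx)
      · obtain ⟨i, hi⟩ := mem_iUnion.1 (hcov hx)
        exact mem_iUnion.2 ⟨Sum.inl i, hi⟩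
      · obtain ⟨i, hi⟩ := mem_iUnion.1 (hcov' hx)
        exact mem_iUnion.2 ⟨Sum.inr i, hi⟩
    · rw [Fintype.sum_sum_type]
      simp only [Sum.elim_inl, Sum.elim_inr]
      linarith
    · rintro (i | i)
      · exact hosc i
      · exact hosc' i

end Pool.Agent.MFG
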