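import Pool.Agent.Lib.MFG.SpecA

/-! # MP_98850d_an, theorem (C): Good is open -/

set_option autoImplicit false

namespace Pool.Agent.MFG

open Set Filter Topology

universe u

namespace GOM

theorem go_open {X : Type u} [TopologicalSpace X] {T : Type} [TopologicalSpace T] {K : Set T}
    (hK : IsCompact K) {W : Set (X × T)} (hW : IsOpen W) : IsOpen {x | ∀ t ∈ K, (x, t) ∈ W} :=
  isOpen_iff_eventually.2 (fun _ hx => hK.eventually_forall_of_forall_eventually
    (fun t ht => hW.mem_nhds (hx t ht)))

end GOM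

theorem tGO : S_GO.{u} := by
  intro G _ _ _ _ D hD q X _ _ _ r s Q b hbas
  obtain ⟨hbc, -, -⟩ := hbas
  refine ⟨?_, ?_⟩
  · set K : Set G := {u : G | D u ≤ Q} with hK
    have hKc : IsCompact K := hD.cpt Q
    set W1 : Fin q → Set (X × G) := fun j => {z | b j (z.2 • z.1) < 1 / 4} ∪
      {z | hgt D r (b j) (z.2 • z.1) ≠ 1 / 2 + s / 4} with hW1
    set W2 : ℝ → Fin q → Fin q → Set (X × (G × G)) := fun W j i =>
      {z | b j (z.2.1 • z.1) < 1 / 4} ∪ {z | b i (z.2.2 • z.1) < 1 / 4} ∪
      {z | om D r W (b j) (b i) (z.2.1 • z.1) (z.2.2 * z.2.1⁻¹) ≠ 1 / 4 + s / 4} with hW2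
    have hO1 : ∀ j, IsOpen (W1 j) := by
      intro j
      have h0 : Continuous (fun z : X × G => z.2 • z.1) := continuous_snd.smul continuous_fst
      exact (isOpen_lt ((hbc j).comp h0) continuous_const).union
        (isOpen_ne_fun ((hgt_cont hD r (hbc j)).comp h0) continuous_const)
    have hO2 : ∀ W j i, IsOpen (W2 W j i) := by
      intro W j i
      have h1 : Continuous (fun z : X × (G × G) => z.2.1 • z.1) :=
        (continuous_fst.comp continuous_snd).smul continuous_fst
      have h2 : Continuous (fun z : X × (G × G) => z.2.2 • z.1) :=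
        (continuous_snd.comp continuous_snd).smul continuous_fst
      have h3 : Continuous (fun z : X × (G × G) => om D r W (b j) (b i) (z.2.1 • z.1)
          (z.2.2 * z.2.1⁻¹)) :=
        (om_cont hD r W (hbc j) (hbc i)).comp (h1.prodMk (by fun_prop))
      exact ((isOpen_lt ((hbc j).comp h1) continuous_const).union
        (isOpen_lt ((hbc i).comp h2) continuous_const)).union (isOpen_ne_fun h3 continuous_const)
    have heq : {x | Good D r Q s b x} = (⋂ j, {x | ∀ u ∈ K, (x, u) ∈ W1 j}) ∩
        ((⋂ j, ⋂ i, {x | ∀ p ∈ K ×ˢ K, (x, p) ∈ W2 1 j i}) ∩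
        (⋂ j, ⋂ i, {x | ∀ p ∈ K ×ˢ K, (x, p) ∈ W2 8 j i})) := by
      ext x
      constructor
      · rintro ⟨h1, h2⟩
        refine ⟨mem_iInter.2 fun j u hu => ?_, mem_iInter.2 fun j => mem_iInter.2 fun i p hp => ?_,
          mem_iInter.2 fun j => mem_iInter.2 fun i p hp => ?_⟩
        · by_cases hc : b j (u • x) < 1 / 4
          · exact Or.inl hc
          · exact Or.inr (h1 j u hu (not_lt.1 hc))
        · by_cases hc : b j (p.1 • x) < 1 / 4
          · exact Or.inl (Or.inl hc)
          by_cases hc' : b i (p.2 • x) < 1 / 4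
          · exact Or.inl (Or.inr hc')
          · exact Or.inr (h2 1 (Or.inl rfl) j i p.1 p.2 hp.1 hp.2 (not_lt.1 hc) (not_lt.1 hc'))
        · by_cases hc : b j (p.1 • x) < 1 / 4
          · exact Or.inl (Or.inl hc)
          by_cases hc' : b i (p.2 • x) < 1 / 4
          · exact Or.inl (Or.inr hc')
          · exact Or.inr (h2 8 (Or.inr rfl) j i p.1 p.2 hp.1 hp.2 (not_lt.1 hc) (not_lt.1 hc'))
      · rintro ⟨h1, h2, h3⟩
        rw [mem_iInter] at h1
        simp only [mem_iInter] at h2 h3
        refine ⟨fun j u hu hb => ?_, fun W hW j i u v hu hv hb hb' => ?_⟩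
        · rcases h1 j u hu with h | h
          · exact absurd h (not_lt.2 hb)
          · exact h
        · rcases hW with rfl | rfl
          · rcases h2 j i (u, v) ⟨hu, hv⟩ with (h | h) | h
            · exact absurd h (not_lt.2 hb)
            · exact absurd h (not_lt.2 hb')
            · exact h
          · rcases h3 j i (u, v) ⟨hu, hv⟩ with (h | h) | h
            · exact absurd h (not_lt.2 hb)
            · exact absurd h (not_lt.2 hb')
            · exact h
    rw [heq]
    exact (isOpen_iInter_of_finite fun j => GOM.go_open hKc (hO1 j)).inter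
      ((isOpen_iInter_of_finite fun j => isOpen_iInter_of_finite fun i =>
        GOM.go_open (hKc.prod hKc) (hO2 1 j i)).inter
      (isOpen_iInter_of_finite fun j => isOpen_iInter_of_finite fun i =>
        GOM.go_open (hKc.prod hKc) (hO2 8 j i)))
  · rintro Q' ρ x u ⟨h1, h2⟩ hu hQ
    have hle : ∀ v : G, D v ≤ Q → D (v * u) ≤ Q' := fun v hv =>
      (hD.mul v u).trans (by linarith)
    refine ⟨fun j v hv hb => ?_, fun W hW j i v v' hv hv' hb hb' => ?_⟩
    · rw [smul_smul] at hb ⊢
      exact h1 j (v * u) (hle v hv) hb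
    · rw [smul_smul] at hb hb' ⊢
      have h3 := h2 W hW j i (v * u) (v' * u) (hle v hv) (hle v' hv') hb hb'
      have h4 : v' * u * (v * u)⁻¹ = v' * v⁻¹ := by group
      rwa [h4] at h3

end Pool.Agent.MFG
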