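import Pool.Agent.Lib.MFG.SpecA

/-! # MP_98850d_an, theorem (C), part A: the open sets for one parameter -/

set_option autoImplicit false
set_option linter.unusedSectionVars false

namespace Pool.Agent.MFG

open Set Filter Topology

universe u

namespace GrdM

variable {G : Type} [Group G] [TopologicalSpace G] [IsTopologicalGroup G] {D : G → ℝ} {q : ℕ} {X : Type u}
  [MetricSpace X] [MulAction G X] [ContinuousSMul G X] {r s : ℝ} {b : Fin q → X → ℝ} {st : Fin q → X → ℕ}

/-- a positive label: the point is high, there is no near labelled point of smaller type, and the label is not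
used in the window `8` -/
theorem grd_pos (hst : IsSt D r s b st)
    (hne : ∀ (j : Fin q) (y : X), ({l | 1 ≤ l ∧ l ∉ Used D r s b st 8 j y} : Set ℕ).Nonempty)
    {j : Fin q} {y : X} (h : 1 ≤ st j y) :
    1 / 2 + s / 4 < hgt D r (b j) y ∧ Used D r s b st 1 j y = ∅ ∧ st j y ∉ Used D r s b st 8 j y := by
  have h1 := hst j y
  by_cases hc : 1 / 2 + s / 4 < hgt D r (b j) y ∧ Used D r s b st 1 j y = ∅
  · rw [if_pos hc] at h1
    refine ⟨hc.1, hc.2, ?_⟩
    rw [h1]
    exact (Nat.sInf_mem (hne j y)).2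
  · rw [if_neg hc] at h1
    omega

theorem grd_no (hD : Len D) (hr : 0 < r) (hs1 : s ≤ 1) (hB : Bas D r b) (hst : IsSt D r s b st)
    (hne : ∀ (j : Fin q) (y : X), ({l | 1 ≤ l ∧ l ∉ Used D r s b st 8 j y} : Set ℕ).Nonempty)
    {i j : Fin q} {y : X} {v : G} {l : ℕ} (hij : i < j) (hj : 1 / 2 < b j y)
    (hi : 1 / 2 < b i (v • y)) (hv : D v ≤ 8) (h1 : st j y = l + 1) (h2 : st i (v • y) = l + 1) :
    False := by
  have hom : 1 / 4 + s / 4 < om D r 8 (b j) (b i) y v := by
    rw [lt_om hD hr.le (hB.1 j) (hB.1 i)]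
    refine ⟨1, v, by rw [hD.one]; exact hr.le, by rw [mul_inv_cancel, hD.one]; exact hr.le, ?_,
      by linarith, ?_⟩
    · rw [one_smul]; linarith
    · have := one_le_kap (D := D) (W := 8) (v := v * 1⁻¹) (by rw [inv_one, mul_one]; exact hv)
      linarith
  have h3 := (grd_pos hst hne (by omega : 1 ≤ st j y)).2.2
  apply h3
  rw [h1]
  exact ⟨by omega, i, hij, v, by linarith, h2, hom⟩

end GrdM

open GrdM in
theorem tGrd : S_StE.{u} → S_CI.{u} → S_Pk.{u} → S_LC.{u} → S_GO.{u} → S_Grd.{u} := by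
  intro hStE hCI hPk hLC hGO G _ _ _ _ D P hD hP q X _ _ _ r s b hr hr8 hs hs1 hB hcov
  obtain ⟨st, hst⟩ := hStE G D q X r s b
  have hpk := hPk G D P hD hP q X r s b st hr hr8 hs hs1 hB hst
  have hne : ∀ (j : Fin q) (y : X), ({l | 1 ≤ l ∧ l ∉ Used D r s b st 8 j y} : Set ℕ).Nonempty :=
    fun j y => (hpk j y).2.2
  have hmono : ∀ (Q Q' : ℝ) (y : X), Q ≤ Q' → Good D r Q' s b y → Good D r Q s b y := by
    intro Q Q' y hQ hG
    have h := (hGO G D hD q X r s Q b hB).2 Q' 0 y 1 hG (by rw [hD.one]) (by linarith)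
    rwa [one_smul] at h
  refine ⟨fun l j => {y | Good D r (9 * q) s b y ∧ 1 / 2 < b j y ∧ st j y = l + 1}, ?_, ?_, ?_, ?_⟩
  · intro l j
    rw [isOpen_iff_mem_nhds]
    rintro y ⟨hG, hj, hstj⟩
    have e1 : ∀ᶠ y' in 𝓝 y, Good D r (9 * q) s b y' :=
      (hGO G D hD q X r s (9 * q) b hB).1.mem_nhds hG
    have e2 : ∀ᶠ y' in 𝓝 y, 1 / 2 < b j y' := (hB.1 j).continuousAt.eventually (lt_mem_nhds hj)
    have hjq : ((j : ℕ) : ℝ) + 1 ≤ q := by exact_mod_cast j.2
    have e3 := hLC G D P hD hP q X r s b st hr hr8 hs hs1 hB hst j y (by linarith)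
      (hmono _ _ y (by linarith) hG)
    filter_upwards [e1, e2, e3] with y' h1 h2 h3
    exact ⟨h1, h2, by rw [h3, hstj]⟩
  · rintro l j x ⟨-, hj, -⟩
    linarith
  · intro l j i y v hy hvy hv
    obtain ⟨-, hj, hj2⟩ := hy
    obtain ⟨-, hi, hi2⟩ := hvy
    rcases lt_trichotomy i j with h | h | h
    · exact (grd_no hD hr hs1 hB hst hne h hj hi hv hj2 hi2).elim
    · subst h
      refine ⟨rfl, hB.2.2 i y v ?_ ?_ (by linarith)⟩
      · show 0 < b i y
        linarith
      · show 0 < b i (v • y)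
        linarith
    · exfalso
      have h3 : v⁻¹ • (v • y) = y := inv_smul_smul v y
      refine grd_no hD hr hs1 hB hst hne (y := v • y) (v := v⁻¹) h hi (by rw [h3]; exact hj)
        (by rw [hD.inv]; exact hv) hi2 (by rw [h3]; exact hj2)
  · intro x hG
    obtain ⟨j, hj⟩ := hcov x
    have hq0 : (0 : ℝ) ≤ q := Nat.cast_nonneg q
    have hhgt : 1 / 2 + s / 4 < hgt D r (b j) x := by
      have h := le_hgt hD (hB.1 j) x (u := 1) (r := r) (by rw [hD.one]; exact hr.le)
      rw [one_smul] at h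
      linarith
    by_cases hU : Used D r s b st 1 j x = ∅
    · have h1 := hst j x
      rw [if_pos ⟨hhgt, hU⟩] at h1
      have h2 := Nat.sInf_mem (hne j x)
      rw [← h1] at h2
      have h3 := (hpk j x).2.1
      refine ⟨⟨st j x - 1, by have := h2.1; omega⟩, j, 1, by rw [hD.one]; positivity, ?_⟩
      rw [one_smul]
      refine ⟨hmono _ _ x (by linarith) hG, by linarith, ?_⟩
      have := h2.1
      simp only
      omega
    · obtain ⟨l, hl1, i, hij, w, hbw, hstw, hom⟩ := Set.nonempty_iff_ne_empty.2 hU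
      obtain ⟨u, v, hu, hv, -, -, hk⟩ := (lt_om hD hr.le (hB.1 j) (hB.1 i) x w).1 hom
      have hk2 := kap_pos (lt_of_le_of_lt (by positivity) hk)
      have h1 := (grd_pos hst hne (by rw [hstw]; exact hl1 : 1 ≤ st i (w • x))).1
      obtain ⟨v', hv', hb'⟩ := (lt_hgt hD hr.le (hB.1 i) (w • x)).1 h1
      have hst' : st i (v' • (w • x)) = l := by
        rw [← hstw]
        exact hCI G D hD q X r s b st hr hr8 hB hst i (w • x) v' (by linarith) (by linarith) (by linarith)
      have hlc : l ≤ P + 1 := by rw [← hstw]; exact (hpk i _).2.1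
      have hw : D w ≤ D (v * w⁻¹) + D (v * u⁻¹) + D u := by
        have h5 := hD.le_add w v
        have h6 := hD.le_add v u
        rw [hD.symm w v] at h5
        linarith
      have hvw : D (v' * w) ≤ 5 / 4 + 3 * r := by
        have := hD.mul v' w
        linarith
      refine ⟨⟨l - 1, by omega⟩, i, v' * w, hvw, ?_, ?_, ?_⟩
      · exact (hGO G D hD q X r s (9 * q) b hB).2 (9 * q + 12) 2 x (v' * w) hG (by linarith) (by linarith)
      · rw [mul_smul]; linarith
      · rw [mul_smul, hst']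
        simp only
        omega

end Pool.Agent.MFG
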