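import Pool.Agent.Lib.MFG.SpecA

/-! # MP_98850d_an, theorem (C), part A: hgt and om are constant on clusters (helper60) -/

set_option autoImplicit false

namespace Pool.Agent.MFG

open Set Filter Topology

universe u

namespace HIM

variable {G : Type} [Group G] [TopologicalSpace G] [IsTopologicalGroup G]
variable {X : Type u} [TopologicalSpace X] [MulAction G X] [ContinuousSMul G X]
variable {D : G → ℝ}

theorem hi_hgt (hD : Len D) {r : ℝ} {b : X → ℝ}
    {y : X} {u : G} (hr : 0 < r) (hr8 : r ≤ 1 / 8) (hb : Continuous b)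
    (hcls : Cls D r 20 {x | 0 < b x}) (hy : 0 < b y) (huy : 0 < b (u • y)) (hu : D u ≤ 20) {t : ℝ}
    (ht : 0 ≤ t) (h : t < hgt D r b (u • y)) : t < hgt D r b y := by
  have hur : D u < r := hcls y u hy huy hu
  rw [lt_hgt hD hr.le hb] at h ⊢
  obtain ⟨v, hv, hvt⟩ := h
  rw [smul_smul] at hvt
  refine ⟨v * u, ?_, hvt⟩
  apply (hcls y (v * u) hy (ht.trans_lt hvt) _).le
  exact (hD.mul _ _).trans (by linarith)

theorem hi_om (hD : Len D) {r W : ℝ} {b b' : X → ℝ}
    {y : X} {u w w' : G} (hr : 0 < r) (hr8 : r ≤ 1 / 8) (hb : Continuous b) (hb' : Continuous b')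
    (hcls : Cls D r 20 {x | 0 < b x}) (hcls' : Cls D r 20 {x | 0 < b' x}) (hy : 0 < b y)
    (huy : 0 < b (u • y)) (hu : D u ≤ 20) (hwy : 0 < b' (w • y)) (hwy' : 0 < b' (w' • (u • y)))
    (hww : D (w' * u * w⁻¹) ≤ 19) {t : ℝ} (ht : 0 ≤ t) (h : t < om D r W b b' (u • y) w') :
    t < om D r W b b' y w := by
  have hur : D u < r := hcls y u hy huy hu
  rw [lt_om hD hr.le hb hb'] at h ⊢
  obtain ⟨u1, v1, hu1, hv1, h1, h2, h3⟩ := h
  rw [smul_smul] at h1 h2
  have hd : D (w' * u * w⁻¹) < r := by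
    apply hcls' (w • y) (w' * u * w⁻¹) hwy
    · show 0 < b' ((w' * u * w⁻¹) • (w • y))
      rw [act_sub, ← smul_smul]
      exact hwy'
    · linarith
  refine ⟨u1 * u, v1 * u, ?_, ?_, h1, h2, ?_⟩
  · apply (hcls y (u1 * u) hy (ht.trans_lt h1) _).le
    exact (hD.mul _ _).trans (by linarith)
  · apply (hcls' (w • y) (v1 * u * w⁻¹) hwy _ _).le
    · show 0 < b' ((v1 * u * w⁻¹) • (w • y))
      rw [act_sub]
      exact ht.trans_lt h2
    · have e : v1 * u * w⁻¹ = v1 * w'⁻¹ * (w' * u * w⁻¹) := by group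
      rw [e]
      exact (hD.mul _ _).trans (by linarith)
  · have e : v1 * u * (u1 * u)⁻¹ = v1 * u1⁻¹ := by group
    rw [e]
    exact h3

end HIM

open HIM in
theorem tHI : S_HI.{u} := by
  intro G _ _ _ _ D hD X _ _ _ r W b b' y u w w' hr hr8 hb hb' h0 h0' hcls hcls' hy huy hu
  have hback : 0 < b (u⁻¹ • (u • y)) := by rwa [inv_smul_smul]
  have h1r : D (1 : G) ≤ r := by
    rw [hD.one]
    exact hr.le
  refine ⟨?_, ?_⟩
  · apply eq_of_forall_lt_iff
    intro t
    rcases lt_or_ge t 0 with ht | ht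
    · constructor
      · intro _
        exact ht.trans_le ((h0 _).trans (le_hgt hD hb y h1r))
      · intro _
        exact ht.trans_le ((h0 _).trans (le_hgt hD hb (u • y) h1r))
    · constructor
      · exact hi_hgt hD hr hr8 hb hcls hy huy hu ht
      · intro h
        apply hi_hgt hD (y := u • y) (u := u⁻¹) hr hr8 hb hcls huy hback (by rwa [hD.inv]) ht
        rwa [inv_smul_smul]
  · intro hwy hwy' hww
    apply eq_of_forall_lt_iff
    intro t
    rcases lt_or_ge t 0 with ht | ht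
    · constructor
      · intro _
        exact ht.trans_le (om_nonneg hD hr.le hb hb' h0 h0' _ _)
      · intro _
        exact ht.trans_le (om_nonneg hD hr.le hb hb' h0 h0' _ _)
    · constructor
      · exact hi_om hD hr hr8 hb hb' hcls hcls' hy huy hu hwy hwy' hww ht
      · intro h
        apply hi_om hD (y := u • y) (u := u⁻¹) (w := w') (w' := w) hr hr8 hb hb' hcls hcls' huy hback
          (by rwa [hD.inv]) hwy' (by rwa [inv_smul_smul]) _ ht
        · rwa [inv_smul_smul]
        · have e : w * u⁻¹ * w'⁻¹ = (w' * u * w⁻¹)⁻¹ := by group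
          rw [e, hD.inv]
          exact hww

end Pool.Agent.MFG
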