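import Pool.Agent.Lib.MFG.SpecA

/-! # MP_98850d_an, theorem (C), part A: the labels are locally constant -/

set_option autoImplicit false
set_option linter.unusedSectionVars false

namespace Pool.Agent.MFG

open Set Filter Topology

universe u

namespace LCM

variable {G : Type} [Group G] [TopologicalSpace G] [IsTopologicalGroup G] [T2Space G]
variable {D : G → ℝ}

theorem good_act {X : Type u} [MulAction G X] (h : Len D) {q : ℕ} {r s Q Q' ρ : ℝ}
    {b : Fin q → X → ℝ} {x : X} {w : G} (hG : Good D r Q' s b x) (hw : D w ≤ ρ)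
    (hQ : Q + ρ ≤ Q') : Good D r Q s b (w • x) := by
  have hmul : ∀ u : G, D u ≤ Q → D (u * w) ≤ Q' := by
    intro u hu
    have := h.mul u w
    linarith
  refine ⟨?_, ?_⟩
  · intro j u hu hb
    rw [smul_smul] at hb ⊢
    exact hG.1 j (u * w) (hmul u hu) hb
  · intro W hW j i u v hu hv hb1 hb2
    rw [smul_smul] at hb1 hb2 ⊢
    have h1 := hG.2 W hW j i (u * w) (v * w) (hmul u hu) (hmul v hv) hb1 hb2
    have h2 : v * w * (u * w)⁻¹ = v * u⁻¹ := by group
    rw [h2] at h1
    exact h1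

theorem lc_norm {X : Type u} [MetricSpace X] [MulAction G X] [ContinuousSMul G X] (h : Len D)
    {r W t : ℝ} {b b' : X → ℝ} {y : X} {w : G} (hr : 0 < r) (hr8 : r ≤ 1 / 8)
    (hW : W = 1 ∨ W = 8) (ht : 0 ≤ t) (hb : Continuous b) (hb' : Continuous b')
    (h0 : t < om D r W b b' y w) : D w ≤ 9 := by
  obtain ⟨u, v, hu, hv, -, -, h3⟩ := (lt_om h hr.le hb hb' y w).1 h0
  have h4 := kap_pos (lt_of_le_of_lt ht h3)
  have h5 := h.le_add w v
  have h6 := h.le_add v u
  have h7 := h.symm w v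
  rcases hW with hW | hW <;> subst hW <;> linarith

/-- one window -/
theorem lc_used {X : Type u} [MetricSpace X] [MulAction G X] [ContinuousSMul G X] (hL : Len D)
    {q B : ℕ} {r s W : ℝ} {b : Fin q → X → ℝ} {st : Fin q → X → ℕ} (hHI : S_HI.{u})
    (hCI : S_CI.{u}) (hr : 0 < r) (hr8 : r ≤ 1 / 8) (hs : 0 ≤ s) (hB : Bas D r b)
    (hst : IsSt D r s b st) (hbd : ∀ i y, st i y ≤ B) (hW : W = 1 ∨ W = 8) (j : Fin q) (y : X)
    (hy : 1 / 4 ≤ b j y) (hG : Good D r (9 * ((j : ℕ) + 1)) s b y)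
    (hloc : ∀ i, i < j → ∀ w : G, D w ≤ 9 → 1 / 4 ≤ b i (w • y) →
      ∀ᶠ z in 𝓝 (w • y), st i z = st i (w • y)) :
    ∀ᶠ y' in 𝓝 y, Used D r s b st W j y' = Used D r s b st W j y := by
  have hthr : 0 ≤ 1 / 4 + s / 4 := by positivity
  -- the inclusion of the right side in the left side
  have hsup : ∀ᶠ y' in 𝓝 y, ∀ l ∈ Used D r s b st W j y, l ∈ Used D r s b st W j y' := by
    have hfin : (Used D r s b st W j y).Finite := by
      apply (Set.finite_Iic B).subset
      rintro l ⟨-, i, -, w, -, h, -⟩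
      rw [Set.mem_Iic, ← h]
      exact hbd i _
    rw [Filter.eventually_all_finite hfin]
    rintro l ⟨hl1, i, hij, w, hbw, hstw, hom⟩
    -- improve the witness
    obtain ⟨u0, v, hu0, hv, -, hv2, -⟩ := (lt_om hL hr.le (hB.1 j) (hB.1 i) y w).1 hom
    have hv2' : 1 / 4 < b i (v • y) := by linarith
    have hsv : (v * w⁻¹) • (w • y) = v • y := act_sub w v y
    have hvw20 : D (v * w⁻¹) ≤ 20 := by linarith
    have hst' : st i (v • y) = l := by
      rw [← hsv, ← hstw]
      exact hCI G D hL q X r s b st hr hr8 hB hst i (w • y) (v * w⁻¹) (by linarith)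
        (by rw [hsv]; linarith) hvw20
    have hom' : om D r W (b j) (b i) y v = om D r W (b j) (b i) y w := by
      have h := (hHI G D hL X r W (b j) (b i) y 1 w v hr hr8 (hB.1 j) (hB.1 i)
        (fun x => (hB.2.1 j x).1) (fun x => (hB.2.1 i x).1) (hB.2.2 j) (hB.2.2 i) (by linarith)
        (by rw [one_smul]; linarith) (by rw [hL.one]; norm_num)).2 (by linarith)
        (by rw [one_smul]; linarith) (by rw [mul_one]; linarith)
      rw [one_smul] at h
      exact h
    have hom2 : 1 / 4 + s / 4 < om D r W (b j) (b i) y v := by rw [hom']; exact hom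
    have hv9 : D v ≤ 9 := lc_norm hL hr hr8 hW hthr (hB.1 j) (hB.1 i) hom2
    have hcv : Continuous (fun y' : X => v • y') := continuous_const_smul v
    have e1 : ∀ᶠ y' in 𝓝 y, st i (v • y') = st i (v • y) :=
      hcv.continuousAt.eventually (hloc i hij v hv9 hv2'.le)
    have e2 : ∀ᶠ y' in 𝓝 y, 1 / 4 < b i (v • y') :=
      ((hB.1 i).comp hcv).continuousAt.eventually (lt_mem_nhds hv2')
    have e3 : ∀ᶠ y' in 𝓝 y, 1 / 4 + s / 4 < om D r W (b j) (b i) y' v := by
      have hc : Continuous (fun y' => om D r W (b j) (b i) y' v) :=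
        (om_cont hL r W (hB.1 j) (hB.1 i)).comp (by fun_prop : Continuous (fun y' : X => (y', v)))
      exact hc.continuousAt.eventually (lt_mem_nhds hom2)
    filter_upwards [e1, e2, e3] with y' h1 h2 h3
    exact ⟨hl1, i, hij, v, h2.le, by rw [h1, hst'], h3⟩
  -- the converse
  have hsub : ∀ᶠ y' in 𝓝 y, ∀ l ∈ Used D r s b st W j y', l ∈ Used D r s b st W j y := by
    have key : ∀ i : Fin q, ∀ l ∈ Set.Iic B, ∀ᶠ y' in 𝓝 y, ∀ w ∈ {w : G | D w ≤ 9},
        (i < j → 1 ≤ l → 1 / 4 ≤ b i (w • y') → st i (w • y') = l →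
          1 / 4 + s / 4 < om D r W (b j) (b i) y' w → l ∈ Used D r s b st W j y) := by
      intro i l _
      apply (hL.cpt 9).eventually_forall_of_forall_eventually
      intro w hw
      have hw9 : D w ≤ 9 := hw
      by_cases hij : i < j
      swap
      · exact Filter.Eventually.of_forall (fun z h => absurd h hij)
      have hcz : Continuous (fun z : X × G => z.2 • z.1) := continuous_snd.smul continuous_fst
      by_cases hbw : b i (w • y) < 1 / 4
      · have hc : Continuous (fun z : X × G => b i (z.2 • z.1)) := (hB.1 i).comp hcz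
        have : ∀ᶠ z : X × G in 𝓝 (y, w), b i (z.2 • z.1) < 1 / 4 :=
          hc.continuousAt.eventually (gt_mem_nhds hbw)
        filter_upwards [this] with z hz _ _ h
        exact absurd h (not_le.2 hz)
      push Not at hbw
      have e1 : ∀ᶠ z : X × G in 𝓝 (y, w), st i (z.2 • z.1) = st i (w • y) :=
        (hcz.continuousAt (x := (y, w))).eventually (hloc i hij w hw9 hbw)
      have hco := om_cont hL r W (hB.1 j) (hB.1 i)
      have hne : om D r W (b j) (b i) y w ≠ 1 / 4 + s / 4 := by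
        have hj0 : (0 : ℝ) ≤ ((j : ℕ) : ℝ) := Nat.cast_nonneg _
        have h := hG.2 W hW j i 1 w (by rw [hL.one]; positivity) (by linarith)
          (by rw [one_smul]; exact hy) hbw
        rw [one_smul, inv_one, mul_one] at h
        exact h
      rcases lt_or_gt_of_ne hne with hlt | hgt
      · have : ∀ᶠ z : X × G in 𝓝 (y, w), om D r W (b j) (b i) z.1 z.2 < 1 / 4 + s / 4 :=
          hco.continuousAt.eventually (gt_mem_nhds hlt)
        filter_upwards [this] with z hz _ _ _ _ h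
        exact absurd h (not_lt.2 hz.le)
      · by_cases hl : st i (w • y) = l
        · exact Filter.Eventually.of_forall
            (fun z _ hl1 _ _ _ => ⟨hl1, i, hij, w, hbw, hl, hgt⟩)
        · filter_upwards [e1] with z hz _ _ _ h _
          exact absurd (hz.symm.trans h) hl
    have key2 : ∀ᶠ y' in 𝓝 y, ∀ i : Fin q, ∀ l ∈ Set.Iic B, ∀ w ∈ {w : G | D w ≤ 9},
        (i < j → 1 ≤ l → 1 / 4 ≤ b i (w • y') → st i (w • y') = l →
          1 / 4 + s / 4 < om D r W (b j) (b i) y' w → l ∈ Used D r s b st W j y) := by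
      rw [Filter.eventually_all]
      intro i
      rw [Filter.eventually_all_finite (Set.finite_Iic _)]
      exact key i
    filter_upwards [key2] with y' hy' l hl
    obtain ⟨hl1, i, hij, w, h1, h2, h3⟩ := hl
    have hw9 : D w ≤ 9 := lc_norm hL hr hr8 hW hthr (hB.1 j) (hB.1 i) h3
    exact hy' i l (by rw [Set.mem_Iic, ← h2]; exact hbd i _) w hw9 hij hl1 h1 h2 h3
  filter_upwards [hsup, hsub] with y' h1 h2
  exact Set.Subset.antisymm h2 h1

end LCM

open LCM

theorem tLC : S_HI.{u} → S_CI.{u} → S_Pk.{u} → S_LC.{u} := by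
  intro hHI hCI hPk G _ _ _ _ D P hL hP q X _ _ _ r s b st hr hr8 hs hs1 hB hst j
  have hbd : ∀ i y, st i y ≤ P + 1 :=
    fun i y => (hPk G D P hL hP q X r s b st hr hr8 hs hs1 hB hst i y).2.1
  refine WellFoundedLT.induction (motive := fun j : Fin q => ∀ y : X, 1 / 4 ≤ b j y →
    Good D r (9 * ((j : ℕ) + 1)) s b y → ∀ᶠ y' in 𝓝 y, st j y' = st j y) j ?_
  intro j IH y hy hG
  have hloc : ∀ i, i < j → ∀ w : G, D w ≤ 9 → 1 / 4 ≤ b i (w • y) →
      ∀ᶠ z in 𝓝 (w • y), st i z = st i (w • y) := by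
    intro i hij w hw hbw
    apply IH i hij (w • y) hbw
    refine good_act hL hG hw ?_
    have : ((i : ℕ) : ℝ) + 1 ≤ ((j : ℕ) : ℝ) := by exact_mod_cast hij
    linarith
  have e1 := lc_used hL hHI hCI hr hr8 hs hB hst hbd (Or.inl rfl) j y hy hG hloc
  have e8 := lc_used hL hHI hCI hr hr8 hs hB hst hbd (Or.inr rfl) j y hy hG hloc
  have hj0 : (0 : ℝ) ≤ ((j : ℕ) : ℝ) := Nat.cast_nonneg _
  have hne : hgt D r (b j) y ≠ 1 / 2 + s / 4 := by
    have h := hG.1 j 1 (by rw [hL.one]; positivity) (by rw [one_smul]; exact hy)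
    rw [one_smul] at h
    exact h
  have eh : ∀ᶠ y' in 𝓝 y, (1 / 2 + s / 4 < hgt D r (b j) y' ↔ 1 / 2 + s / 4 < hgt D r (b j) y) := by
    have hc := hgt_cont hL r (hB.1 j)
    rcases lt_or_gt_of_ne hne with h | h
    · filter_upwards [hc.continuousAt.eventually (gt_mem_nhds h)] with y' hy'
      constructor
      · intro h'; exact absurd h' (not_lt.2 hy'.le)
      · intro h'; exact absurd h' (not_lt.2 h.le)
    · filter_upwards [hc.continuousAt.eventually (lt_mem_nhds h)] with y' hy'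
      exact ⟨fun _ => h, fun _ => hy'⟩
  filter_upwards [e1, e8, eh] with y' h1 h8 hh
  rw [hst j y', hst j y, h1, h8]
  by_cases hc : 1 / 2 + s / 4 < hgt D r (b j) y ∧ Used D r s b st 1 j y = ∅
  · rw [if_pos hc, if_pos ⟨hh.2 hc.1, hc.2⟩]
  · rw [if_neg hc, if_neg (fun h => hc ⟨hh.1 h.1, h.2⟩)]

end Pool.Agent.MFG
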