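import Pool.Agent.Lib.MFG.SpecA

/-! # MP_98850d_an, theorem (C), part A: approximation by functions which are Lipschitz for a distance function -/

set_option autoImplicit false

namespace Pool.Agent.MFG

open Set Filter Topology

universe u

theorem tLip : S_Lip.{u} := by
  intro X _ _ ρ f τ hρ h00 hsymm htri hinj hf hτ
  have hnn : ∀ x y, 0 ≤ ρ x y := by
    intro x y
    have h1 := htri x y x
    rw [h00, hsymm y x] at h1
    linarith
  rcases isEmpty_or_nonempty X with hX | hX
  · exact ⟨fun _ => 0, 1, one_pos, continuous_const, fun x => (hX.false x).elim,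
      fun x => (hX.false x).elim⟩
  obtain ⟨M, hM⟩ := isCompact_univ.exists_bound_of_continuousOn hf.continuousOn
  have hM' : ∀ x, |f x| ≤ M := fun x => hM x (mem_univ x)
  have hM0 : 0 ≤ M := (abs_nonneg _).trans (hM' hX.some)
  have hK : IsCompact {p : X × X | τ / 2 ≤ |f p.1 - f p.2|} :=
    (isClosed_le continuous_const (by fun_prop)).isCompact
  obtain ⟨δ, hδ, hδ'⟩ := hK.exists_forall_le' (f := fun p : X × X => ρ p.1 p.2) (a := 0)
    hρ.continuousOn (by
      intro p hp
      rcases (hnn p.1 p.2).lt_or_eq with h | h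
      · exact h
      · exfalso
        have h1 := hinj _ _ h.symm
        change τ / 2 ≤ |f p.1 - f p.2| at hp
        rw [h1, sub_self, abs_zero] at hp
        linarith)
  set L : ℝ := 2 * M / δ + 1 with hL
  have hL0 : 0 < L := by positivity
  have hLδ : 2 * M ≤ L * δ := by
    rw [hL, add_mul, div_mul_cancel₀ _ hδ.ne']
    linarith
  have hbdd : ∀ p : X, BddBelow (range fun x => f x + L * ρ p x) := by
    intro p
    refine ⟨-M, ?_⟩
    rintro _ ⟨x, rfl⟩
    have h1 := (abs_le.1 (hM' x)).1
    have h2 : 0 ≤ L * ρ p x := mul_nonneg hL0.le (hnn _ _)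
    change -M ≤ f x + L * ρ p x
    linarith
  have hle : ∀ p p' : X, (⨅ x, (f x + L * ρ p x)) ≤ (⨅ x, (f x + L * ρ p' x)) +
      L * ρ p p' := by
    intro p p'
    rw [← sub_le_iff_le_add]
    apply le_ciInf
    intro x
    have h1 := ciInf_le (hbdd p) x
    have h2 : L * ρ p x ≤ L * (ρ p p' + ρ p' x) :=
      mul_le_mul_of_nonneg_left (htri _ _ _) hL0.le
    linarith
  have habs : ∀ p p' : X, |(⨅ x, (f x + L * ρ p x)) - ⨅ x, (f x + L * ρ p' x)| ≤ L * ρ p p' := by
    intro p p'
    rw [abs_sub_le_iff]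
    have h1 := hle p p'
    have h2 := hle p' p
    rw [hsymm p' p] at h2
    constructor <;> linarith
  refine ⟨fun p => ⨅ x, (f x + L * ρ p x), L, hL0, ?_, habs, ?_⟩
  · rw [continuous_iff_continuousAt]
    intro p
    have h1 : Tendsto (fun y => L * ρ y p) (𝓝 p) (𝓝 (L * ρ p p)) :=
      (continuous_const.mul (hρ.comp (continuous_id.prodMk continuous_const))).tendsto p
    rw [h00, mul_zero] at h1
    exact tendsto_iff_norm_sub_tendsto_zero.2
      (squeeze_zero (fun y => norm_nonneg _) (fun y => habs y p) h1)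
  · intro x
    have h1 : (⨅ x', (f x' + L * ρ x x')) ≤ f x := by
      have h := ciInf_le (hbdd x) x
      rw [h00, mul_zero, add_zero] at h
      exact h
    have h2 : f x - τ / 2 ≤ ⨅ x', (f x' + L * ρ x x') := by
      apply le_ciInf
      intro x'
      have h3 : 0 ≤ L * ρ x x' := mul_nonneg hL0.le (hnn _ _)
      by_cases hc : τ / 2 ≤ |f x - f x'|
      · have h4 : δ ≤ ρ x x' := hδ' (x, x') hc
        have h5 : L * δ ≤ L * ρ x x' := mul_le_mul_of_nonneg_left h4 hL0.le
        have h6 := (abs_le.1 (hM' x)).2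
        have h7 := (abs_le.1 (hM' x')).1
        linarith
      · push Not at hc
        have := (abs_lt.1 hc).2
        linarith
    rw [abs_lt]
    constructor <;> linarith

end Pool.Agent.MFG
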