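import Pool.Agent.Lib.MFG.SpecA

/-!
# MFG, part A: equivariant coordinates near a point
-/

set_option autoImplicit false

namespace Pool.Agent.MFG

open Set Filter Topology

universe u

namespace LocPM

variable {G : Type} [Group G] [TopologicalSpace G]

/-- agreement of the two coordinates of a point -/
theorem agree {X : Type u} [MulAction G X] {D : G → ℝ} (h : Len D) {Q : ℝ} {D0 : Set X} {p : X → G}
    (hk : ∀ x ∈ D0, ∀ v : G, v • x ∈ D0 → D v ≤ 2 * Q → p (v • x) = p x * v⁻¹)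
    (u u' : G) (x x' : X) (hu : D u ≤ Q) (hu' : D u' ≤ Q) (hx : x ∈ D0) (hx' : x' ∈ D0)
    (he : u • x = u' • x') : p x * u⁻¹ = p x' * u'⁻¹ := by
  have h1 : (u'⁻¹ * u) • x = x' := by
    rw [mul_smul, he, inv_smul_smul]
  have h2 : D (u'⁻¹ * u) ≤ 2 * Q := by
    have h3 := h.mul u'⁻¹ u
    rw [h.inv] at h3
    linarith
  have h3 := hk x hx (u'⁻¹ * u) (by rw [h1]; exact hx') h2
  rw [h1] at h3
  rw [h3]
  group

omit [Group G] in
/-- a function on the image of a compact set is continuous if it is so after the map -/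
theorem cont_image {Y : Type u} {Z : Type u} [TopologicalSpace Y] [TopologicalSpace Z] [T2Space Z]
    {S : Set Y} (hS : IsCompact S) {f : Y → Z} (hf : Continuous f) {P : Z → G} {F : Y → G}
    (hF : ContinuousOn F S) (hPF : ∀ z ∈ S, P (f z) = F z) : ContinuousOn P (f '' S) := by
  rw [continuousOn_iff_continuous_domRestrict]
  have hmap : MapsTo f S (f '' S) := mapsTo_image f S
  have : CompactSpace S := isCompact_iff_compactSpace.1 hS
  have hc : Continuous (hmap.restrict f S (f '' S)) := by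
    apply Continuous.subtype_mk
    exact hf.comp continuous_subtype_val
  have hs : Function.Surjective (hmap.restrict f S (f '' S)) := by
    rintro ⟨z, y, hy, rfl⟩
    exact ⟨⟨y, hy⟩, rfl⟩
  have hq : IsQuotientMap (hmap.restrict f S (f '' S)) := hc.isClosedMap.isQuotientMap hc hs
  rw [hq.continuous_iff]
  have he : (f '' S).domRestrict P ∘ hmap.restrict f S (f '' S) = S.domRestrict F := by
    funext z
    exact hPF z.1 z.2
  rw [he]
  exact continuousOn_iff_continuous_domRestrict.1 hF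

end LocPM

theorem tLocP : S_Nbd.{u} → S_LocP.{u} := by
  intro hN G _ _ _ _ D h X _ _ _ _ Q x0 hF hS hQ
  obtain ⟨V, hV, O, hO, p, hp, hpe⟩ := hS x0
  have hC : IsCompact ({u : G | D u ≤ 2 * Q} \ interior O) := (h.cpt (2 * Q)).diff isOpen_interior
  have h1 : (1 : G) ∉ ({u : G | D u ≤ 2 * Q} \ interior O) := fun hc =>
    hc.2 (mem_interior_iff_mem_nhds.2 hO)
  obtain ⟨V', hV'o, hV'x, hV'⟩ := hN G X _ x0 hF hC h1
  obtain ⟨D0, hD0n, hD0s, hD0c⟩ := local_compact_nhds (inter_mem hV (hV'o.mem_nhds hV'x))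
  have hk : ∀ x ∈ D0, ∀ v : G, v • x ∈ D0 → D v ≤ 2 * Q → p (v • x) = p x * v⁻¹ := by
    intro x hx v hvx hv
    have hvO : v ∈ interior O := by
      by_contra hvO
      exact hV' x (hD0s hx).2 v ⟨hv, hvO⟩ (hD0s hvx).2
    exact hpe x (hD0s hx).1 v (interior_subset hvO) (hD0s hvx).1
  classical
  let P : X → G := fun y =>
    if hy : ∃ z : G × X, D z.1 ≤ Q ∧ z.2 ∈ D0 ∧ z.1 • z.2 = y then
      p hy.choose.2 * hy.choose.1⁻¹ else 1
  have hP : ∀ (u : G) (x : X), D u ≤ Q → x ∈ D0 → P (u • x) = p x * u⁻¹ := by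
    intro u x hu hx
    have hy : ∃ z : G × X, D z.1 ≤ Q ∧ z.2 ∈ D0 ∧ z.1 • z.2 = u • x := ⟨(u, x), hu, hx, rfl⟩
    have h2 : P (u • x) = p hy.choose.2 * hy.choose.1⁻¹ := dif_pos hy
    rw [h2]
    obtain ⟨h3, h4, h5⟩ := hy.choose_spec
    exact LocPM.agree h hk _ _ _ _ h3 hu h4 hx h5
  have hSc : IsCompact ({u : G | D u ≤ Q} ×ˢ D0) := (h.cpt Q).prod hD0c
  refine ⟨D0, hD0n, (fun z : G × X => z.1 • z.2) '' ({u : G | D u ≤ Q} ×ˢ D0), ?_, P, ?_, ?_⟩
  · exact hSc.image (continuous_fst.smul continuous_snd)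
  · refine LocPM.cont_image hSc (continuous_fst.smul continuous_snd) (F := fun z => p z.2 * z.1⁻¹)
      ?_ ?_
    · have h2 : ContinuousOn (fun z : G × X => p z.2) ({u : G | D u ≤ Q} ×ˢ D0) :=
        hp.comp continuous_snd.continuousOn (fun z hz => (hD0s hz.2).1)
      exact h2.mul continuous_fst.inv.continuousOn
    · rintro ⟨u, x⟩ ⟨hu, hx⟩
      exact hP u x hu hx
  · intro x hx u hu
    refine ⟨⟨(u, x), ⟨hu, hx⟩, rfl⟩, ?_⟩
    have h2 : P x = p x := by
      have h3 := hP 1 x (by rw [h.one]; exact hQ) hx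
      rw [one_smul, inv_one, mul_one] at h3
      exact h3
    rw [hP u x hu hx, h2]

end Pool.Agent.MFG
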