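import Pool.Agent.Lib.MFG.SpecA

/-! # MP_98850d_an, theorem (C), part A: approximation by functions with the covering property -/

set_option autoImplicit false

namespace Pool.Agent.MFG

open Set Filter Topology

universe u

theorem tNF (hLocP : S_LocP.{u}) (hCovD : S_CovD.{u}) (hCovO : S_CovO.{u}) : S_NF.{u} := by
  classical
  intro G _ _ _ _ N n m q hN hPol L hL X _ _ _ _ ι Q b τ η hfree hsec hι hιinj hQ hb hτ hη
  choose D hD K0 hK0 P hP hPeq using fun x0 : X => hLocP G L hL X Q x0 hfree hsec hQ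
  obtain ⟨hO1, hO2⟩ := hCovO G L q X Q (n + m + 1)
  have hsub : ∀ x0, D x0 ⊆ K0 x0 := by
    intro x0 x hx
    have h1 := (hPeq x0 x hx 1 (by rw [hL.one]; exact hQ)).1
    rwa [one_smul] at h1
  have main : ∀ t : Finset X, ∀ (b : Fin q → X → ℝ) (τ η : ℝ), (∀ j, Continuous (b j)) → 0 < τ →
      0 < η → ∃ b' : Fin q → X → ℝ, (∀ j, Continuous (b' j)) ∧ (∀ j x, |b' j x - b j x| < τ) ∧
        Cov L Q b' (⋃ x ∈ t, D x) (n + m + 1) η := by
    intro t
    induction t using Finset.induction_on with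
    | empty =>
      intro b τ η hb hτ hη
      refine ⟨b, hb, fun j x => by simpa using hτ, Empty, inferInstance, fun _ => ∅, fun _ => 1,
        fun _ => one_pos, by simp, by simpa using hη, fun i => i.elim⟩
    | insert x t hx ih =>
      intro b τ η hb hτ hη
      obtain ⟨b1, hb1, hbb1, hcov1⟩ := ih b (τ / 2) (η / 2) hb (by positivity) (by positivity)
      obtain ⟨τ1, hτ1, hstab⟩ := hO1 b1 _ _ hcov1
      obtain ⟨b2, hb2, hbb2, hcov2⟩ := hCovD G N n m q hN hPol L X ι Q (D x) (K0 x) (P x) b1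
        (min (τ / 2) τ1) (η / 2) hι hιinj (hK0 x) (hP x) (hsub x) (hPeq x) hb1
        (lt_min (by positivity) hτ1) (by positivity)
      refine ⟨b2, hb2, fun j y => ?_, ?_⟩
      · have h1 := abs_lt.1 (hbb1 j y)
        have h2 := abs_lt.1 ((hbb2 j y).trans_le (min_le_left _ _))
        rw [abs_lt]
        constructor <;> linarith [h1.1, h1.2, h2.1, h2.2]
      · have h1 := hstab b2 (fun j y => ((hbb2 j y).trans_le (min_le_right _ _)).le)
        have h2 := hO2 b2 _ _ _ _ hcov2 h1
        rw [add_halves] at h2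
        rw [Finset.set_biUnion_insert]
        exact h2
  obtain ⟨t, ht⟩ := CompactSpace.elim_nhds_subcover D hD
  obtain ⟨b', h1, h2, h3⟩ := main t b τ η hb hτ hη
  refine ⟨b', h1, h2, ?_⟩
  rw [ht] at h3
  exact h3

end Pool.Agent.MFG
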