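import Pool.Agent.Lib.MFG.SpecA

/-!
# MFG, module Nbd: small neighbourhoods which do not meet their translates by a compact set
-/

set_option autoImplicit false

namespace Pool.Agent.MFG

open Set Filter Topology

universe u

theorem tNbd : S_Nbd.{u} := by
  intro G _ _ _ _ X _ _ _ C x0 hfree hC h1
  have key : ∀ᶠ p : X × X in 𝓝 (x0, x0), ∀ u ∈ C, u • p.1 ≠ p.2 := by
    apply hC.eventually_forall_of_forall_eventually
    intro u hu
    have hopen : IsOpen {q : (X × X) × G | q.2 • q.1.1 ≠ q.1.2} :=
      isOpen_ne_fun (continuous_snd.smul (continuous_fst.comp continuous_fst))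
        (continuous_snd.comp continuous_fst)
    apply hopen.mem_nhds
    intro h
    have h2 : u = 1 := hfree u x0 h
    exact h1 (h2 ▸ hu)
  obtain ⟨U1, hU1, U2, hU2, hUU⟩ := mem_nhds_prod_iff.1 key
  refine ⟨interior (U1 ∩ U2), isOpen_interior, mem_interior_iff_mem_nhds.2 (inter_mem hU1 hU2), ?_⟩
  intro x hx u hu hux
  have hx' := interior_subset hx
  have hux' := interior_subset hux
  have h3 : (x, u • x) ∈ U1 ×ˢ U2 := ⟨hx'.1, hux'.2⟩
  exact hUU h3 u hu rfl

end Pool.Agent.MFG
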