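import Pool.Agent.Lib.MFG.SpecA

/-! # MP_98850d_an, theorem (C), part A: finite nets of balls -/

set_option autoImplicit false

namespace Pool.Agent.MFG

open Set Filter Topology

theorem tNet : S_Net := by
  intro G _ _ _ _ D h M r hr
  obtain ⟨t, ht, hcov⟩ := (h.cpt M).elim_nhds_subcover
    (fun c => {u : G | D (u * c⁻¹) < r}) (fun c _ => by
      have h1 : Continuous (fun u : G => D (u * c⁻¹)) := h.cont.comp (continuous_mul_const c⁻¹)
      refine (isOpen_lt h1 continuous_const).mem_nhds ?_
      show D (c * c⁻¹) < r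
      rw [mul_inv_cancel, h.one]
      exact hr)
  refine ⟨t, fun c hc => ht c hc, fun u hu => ?_⟩
  have h1 := hcov (show u ∈ {u | D u ≤ M} from hu)
  simp only [mem_iUnion, mem_setOf_eq, exists_prop] at h1
  obtain ⟨c, hc, hd⟩ := h1
  exact ⟨c, hc, hd.le⟩

end Pool.Agent.MFG
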