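import Pool.Agent.Lib.MFG.SpecA

/-! # MP_98850d_an, theorem (C): hgt and om are values at the points of a net -/

set_option autoImplicit false

namespace Pool.Agent.MFG

open Set Filter Topology

universe u

namespace NetVM

variable {G : Type} [Group G] [TopologicalSpace G] [IsTopologicalGroup G]
variable {X : Type u} [TopologicalSpace X] [MulAction G X] [ContinuousSMul G X]
variable {D : G → ℝ}

theorem lt1 (h : Len D) {r t : ℝ} {b : X → ℝ} (hr : 0 ≤ r) (hb : Continuous b) (c : G) (x : X) :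
    t < val1 D r b c x ↔ ∃ u : G, D (u * c⁻¹) ≤ 3 * r ∧ t < b (u • x) := by
  unfold val1
  have hc : IsCompact ((fun u : G => b (u • x)) '' {u | D (u * c⁻¹) ≤ 3 * r}) :=
    (h.cptc c (3 * r)).image (hb.comp (continuous_id.smul continuous_const))
  have hne : ((fun u : G => b (u • x)) '' {u | D (u * c⁻¹) ≤ 3 * r}).Nonempty :=
    ⟨_, c, by show D (c * c⁻¹) ≤ 3 * r; rw [mul_inv_cancel, h.one]; positivity, rfl⟩
  rw [lt_csSup_iff hc.bddAbove hne]
  constructor
  · rintro ⟨_, ⟨u, hu, rfl⟩, h'⟩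
    exact ⟨u, hu, h'⟩
  · rintro ⟨u, hu, h'⟩
    exact ⟨_, ⟨u, hu, rfl⟩, h'⟩

theorem lt2 (h : Len D) {r W t : ℝ} {b b' : X → ℝ} (hr : 0 ≤ r) (hb : Continuous b)
    (hb' : Continuous b') (c c' : G) (x : X) :
    t < val2 D r W b b' c c' x ↔ ∃ u v : G, D (u * c⁻¹) ≤ 3 * r ∧ D (v * c'⁻¹) ≤ 3 * r ∧
      t < b (u • x) ∧ t < b' (v • x) ∧ t < kap D W (v * u⁻¹) := by
  unfold val2
  have hcont : Continuous (fun p : G × G => min (b (p.1 • x)) (min (b' (p.2 • x))
      (kap D W (p.2 * p.1⁻¹)))) := by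
    have h1 : Continuous (fun z : G × G => b (z.1 • x)) :=
      hb.comp (continuous_fst.smul continuous_const)
    have h2 : Continuous (fun z : G × G => b' (z.2 • x)) :=
      hb'.comp (continuous_snd.smul continuous_const)
    have h3 : Continuous (fun z : G × G => kap D W (z.2 * z.1⁻¹)) :=
      (kap_cont h W).comp (by fun_prop)
    exact h1.min (h2.min h3)
  have hc := ((h.cptc c (3 * r)).prod (h.cptc c' (3 * r))).image hcont
  have hne : ((fun p : G × G => min (b (p.1 • x)) (min (b' (p.2 • x))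
      (kap D W (p.2 * p.1⁻¹)))) '' ({u | D (u * c⁻¹) ≤ 3 * r} ×ˢ {u | D (u * c'⁻¹) ≤ 3 * r})).Nonempty :=
    ⟨_, (c, c'), ⟨by show D (c * c⁻¹) ≤ 3 * r; rw [mul_inv_cancel, h.one]; positivity,
      by show D (c' * c'⁻¹) ≤ 3 * r; rw [mul_inv_cancel, h.one]; positivity⟩, rfl⟩
  rw [lt_csSup_iff hc.bddAbove hne]
  constructor
  · rintro ⟨_, ⟨⟨u, v⟩, ⟨hu, hv⟩, rfl⟩, h'⟩
    simp only [lt_min_iff] at h'
    exact ⟨u, v, hu, hv, h'.1, h'.2.1, h'.2.2⟩
  · rintro ⟨u, v, hu, hv, h1, h2, h3⟩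
    refine ⟨_, ⟨(u, v), ⟨hu, hv⟩, rfl⟩, ?_⟩
    simp only [lt_min_iff]
    exact ⟨h1, h2, h3⟩

end NetVM

theorem tNetV : S_NetV.{u} := by
  intro G _ _ _ _ D h X _ _ _ r W b b' c c' u1 v1 x hr hr8 hb hb' h0 h0' hcls hcls' hu1 hv1 hbu hbv
  -- clusters
  have hC : ∀ u : G, D (u * c⁻¹) ≤ 3 * r → 0 < b (u • x) → D (u * u1⁻¹) < r := by
    intro u hu hux
    apply hcls (u1 • x) (u * u1⁻¹) hbu
    · change 0 < b ((u * u1⁻¹) • (u1 • x))
      rwa [act_sub]
    · have h1 := h.tri u c u1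
      rw [h.symm c u1] at h1
      linarith
  have hC' : ∀ v : G, D (v * c'⁻¹) ≤ 3 * r → 0 < b' (v • x) → D (v * v1⁻¹) < r := by
    intro v hv hvx
    apply hcls' (v1 • x) (v * v1⁻¹) hbv
    · change 0 < b' ((v * v1⁻¹) • (v1 • x))
      rwa [act_sub]
    · have h1 := h.tri v c' v1
      rw [h.symm c' v1] at h1
      linarith
  have hN : ∀ u : G, D (u * u1⁻¹) ≤ r → D (u * c⁻¹) ≤ 3 * r := by
    intro u hu
    have h1 := h.tri u u1 c
    linarith
  have hN' : ∀ v : G, D (v * v1⁻¹) ≤ r → D (v * c'⁻¹) ≤ 3 * r := by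
    intro v hv
    have h1 := h.tri v v1 c'
    linarith
  refine ⟨?_, ?_⟩
  · apply eq_of_forall_lt_iff
    intro t
    rw [lt_hgt h hr.le hb, NetVM.lt1 h hr.le hb]
    rcases lt_or_ge t 0 with ht | ht
    · constructor
      · intro _
        exact ⟨c, by rw [mul_inv_cancel, h.one]; positivity, ht.trans_le (h0 _)⟩
      · intro _
        exact ⟨1, by rw [h.one]; exact hr.le, ht.trans_le (h0 _)⟩
    · constructor
      · rintro ⟨u, hu, h'⟩
        rw [smul_smul] at h'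
        exact ⟨u * u1, hN _ (by rwa [mul_inv_cancel_right]), h'⟩
      · rintro ⟨u, hu, h'⟩
        exact ⟨u * u1⁻¹, (hC u hu (ht.trans_lt h')).le, by rwa [act_sub]⟩
  · apply eq_of_forall_lt_iff
    intro t
    rw [lt_om h hr.le hb hb', NetVM.lt2 h hr.le hb hb']
    rcases lt_or_ge t 0 with ht | ht
    · constructor
      · intro _
        exact ⟨c, c', by rw [mul_inv_cancel, h.one]; positivity,
          by rw [mul_inv_cancel, h.one]; positivity,
          ht.trans_le (h0 _), ht.trans_le (h0' _), ht.trans_le (kap_nonneg _ _ _)⟩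
      · intro _
        exact ⟨1, v1 * u1⁻¹, by rw [h.one]; exact hr.le, by rw [mul_inv_cancel, h.one]; exact hr.le,
          ht.trans_le (h0 _), ht.trans_le (h0' _), ht.trans_le (kap_nonneg _ _ _)⟩
    · constructor
      · rintro ⟨u, v, hu, hv, h1, h2, h3⟩
        rw [smul_smul] at h1 h2
        refine ⟨u * u1, v * u1, hN _ (by rwa [mul_inv_cancel_right]), hN' _ ?_, h1, h2, ?_⟩
        · rw [show v * u1 * v1⁻¹ = v * (v1 * u1⁻¹)⁻¹ by group]
          exact hv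
        · rwa [show v * u1 * (u * u1)⁻¹ = v * u⁻¹ by group]
      · rintro ⟨u, v, hu, hv, h1, h2, h3⟩
        refine ⟨u * u1⁻¹, v * u1⁻¹, (hC u hu (ht.trans_lt h1)).le, ?_, by rwa [act_sub],
          by rwa [act_sub], by rwa [show v * u1⁻¹ * (u * u1⁻¹)⁻¹ = v * u⁻¹ by group]⟩
        rw [show v * u1⁻¹ * (v1 * u1⁻¹)⁻¹ = v * v1⁻¹ by group]
        exact (hC' v hv (ht.trans_lt h2)).le

end Pool.Agent.MFG
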