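import Pool.Agent.Lib.MFG.SpecA

/-! # MP_98850d_an, theorem (C): the open sets -/

set_option autoImplicit false

namespace Pool.Agent.MFG

open Set Filter Topology

universe u

theorem tOpn : S_Typ.{u} → S_Sel.{u} → S_Grd.{u} → S_Opn.{u} := by
  intro hTyp hSel hGrd G _ _ _ _ N n m P hN hPol D hD hPck X _ _ _ _ ι O' r hfree hsec hι hιinj
    hO' hr hr8
  obtain ⟨q, z, hq⟩ := hTyp G N n m hN hPol D hD X ι O' r hfree hsec hι hιinj hO' hr
  obtain ⟨η, hη, hsel⟩ := hSel G D hD q (n + m + 1) (9 * q + 12) r hr hr8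
  have hQ : (0 : ℝ) ≤ 9 * q + 12 + 1 := by positivity
  obtain ⟨b, hbas, hbz, hb34, hcov⟩ := hq (9 * q + 12 + 1) η hQ hη
  obtain ⟨s, hs01, hs⟩ := hsel X b hbas hcov
  choose O hO hpos hcls hgood using
    fun k => hGrd G D P hD hPck q X r (s k) b hr hr8 (hs01 k).1 (hs01 k).2 hbas hb34
  refine ⟨q, z, O, hO, fun k l j x hx => hbz j x (hpos k l j x hx), hcls, fun x => ?_⟩
  obtain ⟨k, hk⟩ := hs x
  obtain ⟨l, j, u, hu, hx⟩ := hgood k x hk
  exact ⟨k, l, j, u, hu, hx⟩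

end Pool.Agent.MFG
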