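import Pool.Agent.Lib.MFG.SpecA

/-! # MP_98850d_an, theorem (C), part A: at most `P` labels near a point -/

set_option autoImplicit false

namespace Pool.Agent.MFG

open Set Filter Topology

universe u

namespace PkM

theorem pk_ne {G : Type} [Group G] [TopologicalSpace G] [IsTopologicalGroup G] {D : G → ℝ} (hD : Len D)
    {q : ℕ} {X : Type u} [MetricSpace X] [MulAction G X] [ContinuousSMul G X] {r s : ℝ}
    {b : Fin q → X → ℝ} {st : Fin q → X → ℕ} (hr : 0 < r) (hs1 : s ≤ 1)
    (hbas : Bas D r b) {i i' : Fin q} {z z' : G} {y : X} {l : ℕ} (hl : 1 ≤ l) (hii : i < i')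
    (hzz : D (z * z'⁻¹) ≤ 1) (h1 : 1 / 2 < b i (z • y)) (h2 : 1 / 2 < b i' (z' • y))
    (h3 : st i (z • y) = l) (h4 : Used D r s b st 1 i' (z' • y) = ∅) : False := by
  have hmem : l ∈ Used D r s b st 1 i' (z' • y) := by
    refine ⟨hl, i, hii, z * z'⁻¹, ?_, ?_, ?_⟩
    · rw [act_sub]
      linarith
    · rw [act_sub]
      exact h3
    · rw [lt_om hD hr.le (hbas.1 i') (hbas.1 i)]
      refine ⟨1, z * z'⁻¹, by rw [hD.one]; exact hr.le,
        by rw [mul_inv_cancel, hD.one]; exact hr.le, ?_, ?_, ?_⟩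
      · rw [one_smul]
        linarith
      · rw [act_sub]
        linarith
      · rw [inv_one, mul_one]
        have := one_le_kap hzz
        linarith
  rw [h4] at hmem
  exact hmem

/-- the distance of a shifted witness -/
theorem dist_z {G : Type} [Group G] [TopologicalSpace G] {D : G → ℝ} (hD : Len D) (v' w u v : G)
    {r : ℝ} (hr8 : r ≤ 1 / 8) (h1 : D v' ≤ r) (h2 : D (v * w⁻¹) ≤ r) (h3 : D (v * u⁻¹) < 8 + 1 / 4)
    (h4 : D u ≤ r) : D (v' * w) ≤ 9 := by
  have e1 := hD.mul v' w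
  have e2 := hD.le_add w v
  have e3 := hD.symm w v
  have e4 := hD.le_add v u
  linarith

end PkM

theorem tPk : S_HI.{u} → S_CI.{u} → S_Pk.{u} := by
  classical
  intro _hHI hCI G _ _ _ _ D P hD hPck q X _ _ _ r s b st hr hr8 hs0 hs1 hbas hst j y
  have hpos : ∀ (i : Fin q) (x : X), 1 ≤ st i x → 1 / 2 + s / 4 < hgt D r (b i) x ∧
      Used D r s b st 1 i x = ∅ := by
    intro i x h
    by_contra hcon
    rw [hst i x, if_neg hcon] at h
    exact absurd h (by norm_num)
  -- the points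
  have hex : ∀ l : Used D r s b st 8 j y, ∃ (i : Fin q) (z : G), D z ≤ 9 ∧ 1 / 2 < b i (z • y) ∧
      st i (z • y) = l ∧ Used D r s b st 1 i (z • y) = ∅ := by
    rintro ⟨l, hl, i, hij, w, h1, h2, h3⟩
    obtain ⟨u, v, hu, hv, -, -, hk⟩ := (lt_om hD hr.le (hbas.1 j) (hbas.1 i) y w).1 h3
    have hvu := kap_pos (lt_trans (by linarith) hk)
    have h4 := hpos i (w • y) (by rw [h2]; exact hl)
    obtain ⟨v', hv', h5⟩ := (lt_hgt hD hr.le (hbas.1 i) (w • y)).1 h4.1
    have h6 : st i (v' • (w • y)) = l := by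
      rw [← h2]
      exact hCI G D hD q X r s b st hr hr8 hbas hst i (w • y) v' (by linarith) (by linarith)
        (by linarith)
    refine ⟨i, v' * w, PkM.dist_z hD v' w u v hr8 hv' hv hvu hu, ?_, ?_, ?_⟩
    · rw [mul_smul]
      linarith
    · rw [mul_smul]
      exact h6
    · rw [mul_smul]
      exact (hpos i _ (by rw [h6]; exact hl)).2
  choose I Z hZ hb hstl hU using hex
  have hsep : ∀ l l', l ≠ l' → 1 < D (Z l' * (Z l)⁻¹) := by
    intro l l' hne
    by_contra hcon
    have hd : D (Z l' * (Z l)⁻¹) ≤ 1 := not_lt.1 hcon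
    have hd' : D (Z l * (Z l')⁻¹) ≤ 1 := by rw [hD.symm]; exact hd
    rcases lt_trichotomy (I l) (I l') with h1 | h1 | h1
    · exact PkM.pk_ne hD hr hs1 hbas l.2.1 h1 hd' (hb l) (hb l') (hstl l) (hU l')
    · have h2 := hCI G D hD q X r s b st hr hr8 hbas hst (I l') (Z l' • y) (Z l * (Z l')⁻¹)
        (by have := hb l'; linarith) (by rw [act_sub, ← h1]; have := hb l; linarith) (by linarith)
      rw [act_sub, hstl l', ← h1, hstl l] at h2
      exact hne (Subtype.ext h2)
    · exact PkM.pk_ne hD hr hs1 hbas l'.2.1 h1 hd (hb l') (hb l) (hstl l') (hU l)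
  have hinj : Function.Injective Z := by
    intro l l' h
    by_contra hne
    have h1 := hsep l l' hne
    rw [h, mul_inv_cancel, hD.one] at h1
    linarith
  have hcT : ∀ T : Finset (Used D r s b st 8 j y), T.card ≤ P := by
    intro T
    rw [← Finset.card_image_of_injective T hinj]
    refine hPck _ ?_ ?_
    · intro z hz
      obtain ⟨l, -, rfl⟩ := Finset.mem_image.1 hz
      exact hZ l
    · intro z hz z' hz' hne
      obtain ⟨l, -, rfl⟩ := Finset.mem_image.1 hz
      obtain ⟨l', -, rfl⟩ := Finset.mem_image.1 hz'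
      exact hsep l l' fun h => hne (by rw [h])
  have hfin : Finite (Used D r s b st 8 j y) := by
    by_contra hinf
    haveI : Infinite (Used D r s b st 8 j y) := not_finite_iff_infinite.1 hinf
    obtain ⟨T, hT⟩ := Infinite.exists_subset_card_eq (Used D r s b st 8 j y) (P + 1)
    have := hcT T
    omega
  have hfin' : (Used D r s b st 8 j y).Finite := Set.toFinite _
  have hcard : (Used D r s b st 8 j y).ncard ≤ P := by
    haveI := Fintype.ofFinite (Used D r s b st 8 j y)
    have h1 : Nat.card (Used D r s b st 8 j y) ≤ P := by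
      rw [Nat.card_eq_fintype_card, ← Finset.card_univ]
      exact hcT _
    exact h1
  have hexl : ∃ l, 1 ≤ l ∧ l ≤ P + 1 ∧ l ∉ Used D r s b st 8 j y := by
    by_contra hcon
    push Not at hcon
    have hsub : (↑(Finset.Icc 1 (P + 1)) : Set ℕ) ⊆ Used D r s b st 8 j y := by
      intro l hl
      rw [Finset.coe_Icc] at hl
      exact hcon l hl.1 hl.2
    have h1 := Set.ncard_le_ncard hsub hfin'
    rw [Set.ncard_coe_finset, Nat.card_Icc] at h1
    omega
  obtain ⟨l, hl1, hl2, hl3⟩ := hexl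
  refine ⟨hfin', ?_, ⟨l, hl1, hl3⟩⟩
  rw [hst j y]
  split_ifs
  · have hmem : l ∈ {l | 1 ≤ l ∧ l ∉ Used D r s b st 8 j y} := ⟨hl1, hl3⟩
    exact (Nat.sInf_le hmem).trans hl2
  · exact Nat.zero_le _

end Pool.Agent.MFG
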