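import Pool.Agent.Lib.MFG.SpecA

/-! # MFG, module A/StE (helper10): existence of the greedy labelling -/

set_option autoImplicit false

namespace Pool.Agent.MFG

open Set Filter Topology

universe u

namespace StEM

theorem ste_congr {G : Type} [Group G] {q : ℕ} {X : Type u} [MulAction G X] (D : G → ℝ) (r s : ℝ)
    (b : Fin q → X → ℝ) {st st' : Fin q → X → ℕ} (W : ℝ) (j : Fin q) (y : X)
    (h : ∀ i, i < j → st i = st' i) : Used D r s b st W j y = Used D r s b st' W j y := by
  ext l
  constructor
  · rintro ⟨h1, i, hij, w, h2, h3, h4⟩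
    exact ⟨h1, i, hij, w, h2, by rw [← h i hij]; exact h3, h4⟩
  · rintro ⟨h1, i, hij, w, h2, h3, h4⟩
    exact ⟨h1, i, hij, w, h2, by rw [h i hij]; exact h3, h4⟩

end StEM

open Classical in
theorem tStE : S_StE.{u} := by
  intro G _ D q X _ r s b
  have main : ∀ k : ℕ, k ≤ q → ∃ st : Fin q → X → ℕ, ∀ j : Fin q, (j : ℕ) < k → ∀ y, st j y =
      if 1 / 2 + s / 4 < hgt D r (b j) y ∧ Used D r s b st 1 j y = ∅ then
        sInf {l | 1 ≤ l ∧ l ∉ Used D r s b st 8 j y} else 0 := by
    intro k
    induction k with
    | zero =>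
      intro _
      exact ⟨fun _ _ => 0, fun j hj => absurd hj (Nat.not_lt_zero _)⟩
    | succ k ih =>
      intro hk
      obtain ⟨st, hst⟩ := ih (Nat.le_of_succ_le hk)
      set j0 : Fin q := ⟨k, hk⟩ with hj0
      set g : X → ℕ := fun y => if 1 / 2 + s / 4 < hgt D r (b j0) y ∧ Used D r s b st 1 j0 y = ∅ then
        sInf {l | 1 ≤ l ∧ l ∉ Used D r s b st 8 j0 y} else 0 with hg
      have hlt : ∀ i : Fin q, (i : ℕ) < k → Function.update st j0 g i = st i := by
        intro i hi
        apply Function.update_of_ne
        intro h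
        rw [h] at hi
        exact lt_irrefl _ hi
      refine ⟨Function.update st j0 g, fun j hj y => ?_⟩
      have hU : ∀ W, Used D r s b (Function.update st j0 g) W j y = Used D r s b st W j y := by
        intro W
        apply StEM.ste_congr
        intro i hij
        apply hlt
        have h1 : (i : ℕ) < (j : ℕ) := hij
        omega
      rw [hU 1, hU 8]
      by_cases hjk : (j : ℕ) < k
      · rw [hlt j hjk]
        exact hst j hjk y
      · have hjj : j = j0 := by
          apply Fin.ext
          change (j : ℕ) = k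
          omega
        rw [hjj, Function.update_self]
  obtain ⟨st, hst⟩ := main q le_rfl
  refine ⟨st, fun j y => ?_⟩
  rw [hst j j.2 y]

end Pool.Agent.MFG
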