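import Pool.Agent.Lib.MFG.SpecA

/-!
# MP_98850d_an, theorem (C), module Tie: extension with a small error
-/

set_option autoImplicit false

namespace Pool.Agent.MFG

open Set Filter Topology

universe u

theorem tTie : S_Tie.{u} := by
  intro X _ K0 b g τ hK hb hg hτ h
  have hcl : IsClosed K0 := hK.isClosed
  let f : C(K0, ℝ) := ⟨fun x => g x - b x, hg.sub (hb.comp continuous_subtype_val)⟩
  have hf : ∀ x, f x ∈ Icc (-τ) τ := fun x => abs_le.1 (h x)
  obtain ⟨H, hH, hHf⟩ := ContinuousMap.exists_extension_forall_mem_of_isClosedEmbedding f hf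
    ⟨0, by constructor <;> linarith⟩ hcl.isClosedEmbedding_subtypeVal
  refine ⟨fun x => b x + H x, hb.add H.continuous, fun x => ?_, fun x => ?_⟩
  · rw [add_sub_cancel_left]
    exact abs_le.2 (hH x)
  · have e : H x = g x - b x := congrFun hHf x
    change b x + H x = g x
    rw [e]
    ring

end Pool.Agent.MFG
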