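import Pool.Agent.Lib.MFG.SpecA

/-! # MP_98850d_an, theorem (C), part A: the types -/

set_option autoImplicit false

namespace Pool.Agent.MFG

open Set Filter Topology

universe u

theorem tTyp : S_Nbd.{u} → S_NF.{u} → Pool.Agent.MP98850d.S_Bmp.{u} → S_Typ.{u} := by
  intro hNbd hNF hBmp
  intro G _ _ _ _ N n m hN hPol D hD X _ _ _ _ ι O r hfree hsec hι hιinj hO hr
  have hC1 : (1 : G) ∉ {u : G | r ≤ D u ∧ D u ≤ 20} := by
    intro h
    have h1 : r ≤ D 1 := h.1
    rw [hD.one] at h1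
    exact absurd hr (not_lt.2 h1)
  choose V0 hV0 hxV0 hV0c using fun x0 : X =>
    hNbd G X {u : G | r ≤ D u ∧ D u ≤ 20} x0 hfree (hD.cpt_shell r 20) hC1
  set V : X → Set X := fun z => interior (O z) ∩ V0 z with hVdef
  have hV : ∀ z, IsOpen (V z) := fun z => isOpen_interior.inter (hV0 z)
  have hxV : ∀ z, z ∈ V z := fun z => ⟨mem_interior_iff_mem_nhds.2 (hO z), hxV0 z⟩
  have hVO : ∀ z, V z ⊆ O z := fun z x hx => interior_subset hx.1
  have hVc : ∀ z, Cls D r 20 (V z) := by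
    intro z x u hx hux hu
    by_contra h
    exact hV0c z x hx.2 u ⟨not_lt.1 h, hu⟩ hux.2
  obtain ⟨t, ht⟩ := CompactSpace.elim_nhds_subcover V (fun x => (hV x).mem_nhds (hxV x))
  set V' : Fin t.card → Set X := fun j => V (t.equivFin.symm j) with hV'
  have hcov : (⋃ j, V' j) = univ := by
    rw [eq_univ_iff_forall]
    intro x
    have hx : x ∈ ⋃ x ∈ t, V x := by rw [ht]; exact mem_univ x
    simp only [mem_iUnion, exists_prop] at hx
    obtain ⟨y, hy, hxy⟩ := hx
    refine mem_iUnion.2 ⟨t.equivFin ⟨y, hy⟩, ?_⟩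
    rw [hV']
    simp only [Equiv.symm_apply_apply]
    exact hxy
  obtain ⟨β, hβc, hβ01, hβ0, hβ1⟩ := hBmp t.card X V' (fun j => hV _) hcov
  refine ⟨t.card, fun j => (t.equivFin.symm j : X), fun Q η hQ hη => ?_⟩
  obtain ⟨β', hβ'c, hβ', κ, hκ, B, ε, hε, hBcov, hsum, hosc⟩ := hNF G N n m t.card hN hPol D hD X ι Q β
    (1 / 16) η hfree hsec hι hιinj hQ hβc (by norm_num) hη
  have hpos : ∀ j y, 0 < max 0 (min 1 (β' j y - 1 / 16)) → y ∈ V' j := by
    intro j y hy
    by_contra hcon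
    have h1 := hβ0 j y hcon
    have h2 := (abs_lt.1 (hβ' j y)).2
    rw [h1] at h2
    rcases lt_max_iff.1 hy with h | h
    · exact lt_irrefl _ h
    · have := (lt_min_iff.1 h).2
      linarith
  refine ⟨fun j x => max 0 (min 1 (β' j x - 1 / 16)), ⟨?_, ?_, ?_⟩, ?_, ?_,
    κ, hκ, B, ε, hε, hBcov, hsum, ?_⟩
  · intro j
    exact continuous_const.max (continuous_const.min ((hβ'c j).sub continuous_const))
  · intro j x
    exact ⟨le_max_left _ _, max_le zero_le_one (min_le_left _ _)⟩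
  · intro j x u hx hux hu
    exact hVc _ x u (hpos j x hx) (hpos j _ hux) hu
  · intro j x hx
    exact hVO _ (hpos j x hx)
  · intro x
    obtain ⟨j, hj⟩ := hβ1 x
    refine ⟨j, ?_⟩
    have h2 := (abs_lt.1 (hβ' j x)).1
    rw [hj] at h2
    refine lt_max_of_lt_right (lt_min (by norm_num) ?_)
    linarith
  · intro i x hx x' hx' j u hu
    refine (abs_max_sub_max_le_max _ _ _ _).trans ?_
    rw [sub_self, abs_zero]
    apply max_le (hε i).le
    refine (abs_min_sub_min_le_max _ _ _ _).trans ?_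
    rw [sub_self, abs_zero]
    apply max_le (hε i).le
    rw [sub_sub_sub_cancel_right]
    exact hosc i x hx x' hx' j u hu

end Pool.Agent.MFG
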