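import Pool.Agent.Lib.MFG.SpecA

/-! # MP_98850d_an, theorem (C), part A: suprema are 1-Lipschitz -/

set_option autoImplicit false
set_option linter.all false

namespace Pool.Agent.MFG

open Set Filter Topology

universe u

namespace ValLM

theorem sup {T : Type} [TopologicalSpace T] {K : Set T} (hK : IsCompact K) (hne : K.Nonempty)
    {g g' : T → ℝ} (hg : Continuous g) (hg' : Continuous g') {ε : ℝ}
    (h : ∀ t ∈ K, |g t - g' t| ≤ ε) : |sSup (g '' K) - sSup (g' '' K)| ≤ ε := by
  have key : ∀ {g g' : T → ℝ}, Continuous g → Continuous g' → (∀ t ∈ K, |g t - g' t| ≤ ε) →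
      sSup (g '' K) ≤ sSup (g' '' K) + ε := by
    intro g g' _ hg' h
    apply csSup_le (hne.image g)
    rintro _ ⟨t, ht, rfl⟩
    have h1 := le_csSup (hK.image hg').bddAbove ⟨t, ht, rfl⟩
    have h2 := (abs_le.1 (h t ht)).2
    linarith
  have h1 := key hg hg' h
  have h2 := key hg' hg (fun t ht => by rw [abs_sub_comm]; exact h t ht)
  rw [abs_le]
  constructor <;> linarith

end ValLM

theorem tValL : S_ValL.{u} := by
  intro G _ _ _ _ D hD X _ _ _ r W Q ε b b' c c' x x' hr hε hb hb' hc hc' h h'
  have hmem : ∀ (c u : G), D c + 3 * r ≤ Q → D (u * c⁻¹) ≤ 3 * r → D u ≤ Q := by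
    intro c u hc hu
    have h1 := hD.le_add u c
    linarith
  have hself : ∀ c : G, D (c * c⁻¹) ≤ 3 * r := by
    intro c
    rw [mul_inv_cancel, hD.one]
    linarith
  refine ⟨?_, ?_⟩
  · unfold val1
    apply ValLM.sup (hD.cptc c (3 * r)) ⟨c, hself c⟩
    · exact hb.comp (continuous_id.smul continuous_const)
    · exact hb.comp (continuous_id.smul continuous_const)
    · intro u hu
      exact h u (hmem c u hc hu)
  · unfold val2
    have hcont : ∀ y : X, Continuous (fun p : G × G => min (b (p.1 • y)) (min (b' (p.2 • y))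
        (kap D W (p.2 * p.1⁻¹)))) := by
      intro y
      have h1 : Continuous (fun z : G × G => b (z.1 • y)) :=
        hb.comp (continuous_fst.smul continuous_const)
      have h2 : Continuous (fun z : G × G => b' (z.2 • y)) :=
        hb'.comp (continuous_snd.smul continuous_const)
      have h3 : Continuous (fun z : G × G => kap D W (z.2 * z.1⁻¹)) :=
        (kap_cont hD W).comp (by fun_prop)
      exact h1.min (h2.min h3)
    apply ValLM.sup ((hD.cptc c (3 * r)).prod (hD.cptc c' (3 * r)))
      ⟨(c, c'), hself c, hself c'⟩ (hcont x) (hcont x')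
    rintro ⟨u, v⟩ ⟨hu, hv⟩
    refine (abs_min_sub_min_le_max _ _ _ _).trans (max_le (h u (hmem c u hc hu)) ?_)
    refine (abs_min_sub_min_le_max _ _ _ _).trans (max_le (h' v (hmem c' v hc' hv)) ?_)
    rw [sub_self, abs_zero]
    exact hε

end Pool.Agent.MFG
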